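import Pool.Agent.Helper98.Sph.Engine
import Pool.Agent.Helper31.Toric.Decomp

/-!
# ACC for the complementary thresholds

Plan. Let `t` be strictly increasing in `thresholds d A E Γ₁ Γ₂`; choose the data. `n m ≤ d`, so
`n m = n` for infinitely many `m`; replace the sequence by this subsequence. As in
`acc_thresholds` (Pool/Agent/Helper31/Toric/Main.lean) and `acc_thresholds`
(Pool/Agent/Helper98/Germ/Acc.lean, very similar) choose real `σ m ≥ 0` with
`t m < ofReal (σ m) < t (m + 1)`; `σ 0 > 0`, and `σ 0 ≤ σ m` for all `m`. The pair `m` is not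
`(ε, ℝ)`-complementary at the level `b + σ m * M`, and it is at the levels `b + σ a * M` for
`a < m` (`Complementary.mono`). `Fam`: `B m i = b m i + σ m * μ m i`,
`G a m i = b m i + σ a * μ m i`, the same for `B', G'`, `Z m j = (b' m j = 0 ∧ μ' m j = 0)`,
`c₀ = min β (σ 0 * γ)`, where `β, γ > 0` are lower bounds of the positive elements of `Γ₁`, `Γ₂`
(`DCC.exists_min` in Pool/Agent/Helper31/Toric/Decomp.lean, or directly). `hsel`:
`mono_subseq_finset` for `ε`, `b (φ m) (f m i)`, `μ (φ m) (f m i)`, `b' (φ m) (g m i)`,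
`μ' (φ m) (g m i)` with the DCC sets `E`, `insert 0 Γ₁`, `insert 0 Γ₂` (`DCC` of this file and of
Helper31 have the same body).

`Complementary.mono`: by `exists_violation` and `Complementary.le_total`, as `total` is
non-increasing in `b`, `b'` at non-negative `l` (`val ≥ 0` there); in the first case of `Viol`,
`x ≠ 0` by linear independence, `0 < k` and `l > 0`.
-/

open Finset Filter Topology
open scoped ENNReal

namespace Pool.Agent.Helper98.Sph

open Pool.Agent.Helper98.Germ (dot val val_le exists_val_eq)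

private theorem val_nonneg {k : ℕ} (E : Finset (Fin k → ℕ)) {μ : Fin k → ℝ}
    (hμ : ∀ i, 0 ≤ μ i) : 0 ≤ val E μ := by
  by_cases hE : E.Nonempty
  · obtain ⟨α, _, h⟩ := exists_val_eq hE μ
    rw [← h]
    exact Finset.sum_nonneg fun i _ => mul_nonneg (Nat.cast_nonneg _) (hμ i)
  · unfold Germ.val
    rw [dif_neg hE]

private theorem total_mono {k P : ℕ} (a : Fin k → ℕ) {b b₁ : Fin k → ℝ} {c c₁ : Fin P → ℝ}
    (E : Fin P → Finset (Fin k → ℕ)) {μ : Fin k → ℝ} (hμ : ∀ i, 0 ≤ μ i) (hb : ∀ i, b₁ i ≤ b i)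
    (hc : ∀ t, c₁ t ≤ c t) : total a b c E μ ≤ total a b₁ c₁ E μ := by
  unfold total
  have h1 : ∑ i, μ i * ((a i : ℝ) - b i) ≤ ∑ i, μ i * ((a i : ℝ) - b₁ i) :=
    Finset.sum_le_sum fun i _ => mul_le_mul_of_nonneg_left (by linarith [hb i]) (hμ i)
  have h2 : ∑ t, c₁ t * val (E t) μ ≤ ∑ t, c t * val (E t) μ :=
    Finset.sum_le_sum fun t _ => mul_le_mul_of_nonneg_right (hc t) (val_nonneg _ hμ)
  linarith

theorem Complementary.mono {n r q p A : ℕ} {ε : ℝ} {v : Fin r → Fin n → ℤ}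
    {a : Fin r → ℕ} {γ : Fin q → Fin n → ℤ} {C : Fin p → Finset (Fin n → ℤ)}
    {h : Fin p → Fin r → ℤ} {b c : Fin r → ℝ} {b' c' : Fin p → ℝ} (hd : IsData A v a γ C h)
    (hc : Complementary ε v a γ C h b b') (hb : ∀ i, c i ≤ b i)
    (hb' : ∀ k, c' k ≤ b' k) : Complementary ε v a γ C h c c' := by
  by_contra hcon
  rcases exists_violation hd hcon with ⟨k, hk⟩ | hv
  · have h1 := hc.1 k
    have h2 := hb' k
    linarith
  · obtain ⟨k, f, l, x, hk0, -, hl, hx, hγ, hv⟩ := hv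
    have hl0 : ∀ i, 0 ≤ l i := fun i => (hl i).le
    have h1 := hc.le_total hd f l hl0 x hx hγ
    have h2 := total_mono (fun i => a (f i)) (b := fun i => b (f i)) (b₁ := fun i => c (f i))
      (c := b') (c₁ := c') (fun t => expo (fun i => v (f i)) (C t) (fun i => h t (f i))) hl0
      (fun i => hb (f i)) hb'
    rcases hv with ⟨hli, hlt⟩ | ⟨hx0, hlt⟩
    · have hxne : x ≠ 0 := by
        intro h0
        have h3 := Fintype.linearIndependent_iff.mp hli l (by
          funext j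
          have := hx j
          rw [h0] at this
          simp only [Pi.zero_apply, Int.cast_zero] at this
          rw [Finset.sum_apply]
          simp only [Pi.smul_apply, smul_eq_mul, Pi.zero_apply]
          exact this.symm)
        exact (hl ⟨0, hk0⟩).ne' (h3 ⟨0, hk0⟩)
      have h3 := h1.1 hxne
      linarith
    · have h3 := h1.2 hx0
      linarith

private theorem dcc_insert {Γ : Set ℝ} (h : DCC Γ) : DCC (insert 0 Γ) := by
  rintro ⟨f, hf, hm⟩
  apply h
  by_cases h0 : ∃ n, f n = 0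
  · obtain ⟨n, hn⟩ := h0
    refine ⟨fun m => f (n + 1 + m), fun a b hab => hf (by omega), fun m => ?_⟩
    rcases hm (n + 1 + m) with h1 | h1
    · have := hf (show n < n + 1 + m by omega)
      rw [hn, h1] at this
      exact absurd this (lt_irrefl _)
    · exact h1
  · refine ⟨f, hf, fun m => ?_⟩
    rcases hm m with h1 | h1
    · exact absurd ⟨m, h1⟩ h0
    · exact h1

private theorem dcc_low {Γ : Set ℝ} (h : DCC Γ) : ∃ β : ℝ, 0 < β ∧ ∀ x ∈ Γ, 0 < x → β ≤ x := by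
  by_cases hex : ∃ x ∈ Γ, 0 < x
  · obtain ⟨x, _, hx, hmin⟩ := Helper31.Toric.DCC.exists_min (Γ := Γ) h (fun x => 0 < x) hex
    exact ⟨x, hx, hmin⟩
  · refine ⟨1, one_pos, fun x hx hx0 => absurd ⟨x, hx, hx0⟩ hex⟩

/-- the data of an element of `thresholds` in rank `n` -/
private def PP (A n : ℕ) (E Γ₁ Γ₂ : Set ℝ) (t : ℝ≥0∞) : Prop :=
  ∃ ε ∈ E, ∃ (r q p : ℕ) (v : Fin r → Fin n → ℤ) (a : Fin r → ℕ) (γ : Fin q → Fin n → ℤ)
    (C : Fin p → Finset (Fin n → ℤ)) (h : Fin p → Fin r → ℤ) (b m : Fin r → ℝ)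
    (b' m' : Fin p → ℝ), IsData A v a γ C h ∧ 0 ≤ ε ∧
    (∀ i, (b i = 0 ∨ b i ∈ Γ₁) ∧ 0 ≤ b i) ∧ (∀ k, (b' k = 0 ∨ b' k ∈ Γ₁) ∧ 0 ≤ b' k) ∧
    (∀ i, (m i = 0 ∨ m i ∈ Γ₂) ∧ 0 ≤ m i) ∧ (∀ k, (m' k = 0 ∨ m' k ∈ Γ₂) ∧ 0 ≤ m' k) ∧
    Complementary ε v a γ C h b b' ∧ t = threshold ε v a γ C h b m b' m'

private theorem acc_one (A n : ℕ) {E Γ₁ Γ₂ : Set ℝ} (hE : DCC E) (h1 : DCC Γ₁) (h2 : DCC Γ₂)
    (t : ℕ → ℝ≥0∞) (ht : StrictMono t) (hmem : ∀ m, PP A n E Γ₁ Γ₂ (t m)) : False := by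
  classical
  unfold PP at hmem
  choose ε hε r q p v a γ C h b μ b' μ' hd hε0 hb hb' hm hm' hcomp hthr using hmem
  have hs : ∀ n, ∃ s : ℝ, 0 ≤ s ∧ t n < ENNReal.ofReal s ∧ ENNReal.ofReal s < t (n + 1) :=
    fun n => ENNReal.lt_iff_exists_real_btwn.mp (ht (Nat.lt_succ_self n))
  choose σ hσ0 hσ1 hσ2 using hs
  obtain ⟨β, hβ, hβ1⟩ := dcc_low h1
  obtain ⟨κ, hκ, hκ1⟩ := dcc_low h2
  have hσpos : 0 < σ 0 := by
    have : 0 < ENNReal.ofReal (σ 0) := lt_of_le_of_lt (zero_le) (hσ1 0)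
    exact ENNReal.ofReal_pos.1 this
  have hσle : ∀ m, σ 0 ≤ σ m := by
    intro m
    rcases Nat.eq_zero_or_pos m with h0 | h0
    · rw [h0]
    · have h3 : ENNReal.ofReal (σ 0) < ENNReal.ofReal (σ m) :=
        (hσ2 0).trans_le ((ht.monotone h0).trans (hσ1 m).le)
      by_contra h4
      push Not at h4
      exact absurd h3 (not_lt.mpr (ENNReal.ofReal_le_ofReal h4.le))
  have hnot : ∀ m, ¬ Complementary (ε m) (v m) (a m) (γ m) (C m) (h m)
      (fun i => b m i + σ m * μ m i) (fun k => b' m k + σ m * μ' m k) := by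
    intro m hcon
    have h3 : ENNReal.ofReal (σ m) ≤ t m := by
      rw [hthr m]
      exact le_iSup₂_of_le (σ m) ⟨hσ0 m, hcon⟩ le_rfl
    exact absurd (hσ1 m) (not_lt.mpr h3)
  have hyes : ∀ n j, n < j → Complementary (ε j) (v j) (a j) (γ j) (C j) (h j)
      (fun i => b j i + σ n * μ j i) (fun k => b' j k + σ n * μ' j k) := by
    intro n j hnj
    have h3 : ENNReal.ofReal (σ n) < threshold (ε j) (v j) (a j) (γ j) (C j) (h j) (b j) (μ j)
        (b' j) (μ' j) := by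
      rw [← hthr j]
      exact (hσ2 n).trans_le (ht.monotone hnj)
    rw [threshold, lt_iSup_iff] at h3
    obtain ⟨s', h3⟩ := h3
    rw [lt_iSup_iff] at h3
    obtain ⟨⟨hs', hcs'⟩, h3⟩ := h3
    have h4 : σ n ≤ s' := by
      by_contra h5
      push Not at h5
      exact absurd h3 (not_lt.mpr (ENNReal.ofReal_le_ofReal h5.le))
    refine hcs'.mono (hd j) (fun i => ?_) (fun k => ?_)
    · have := mul_le_mul_of_nonneg_right h4 (hm j i).2
      linarith
    · have := mul_le_mul_of_nonneg_right h4 (hm' j k).2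
      linarith
  refine Fam.false (n := n) ⟨A, r, q, p, v, a, γ, C, h, ε, fun m i => b m i + σ m * μ m i,
    fun m i => b' m i + σ m * μ' m i, fun a m i => b m i + σ a * μ m i,
    fun a m i => b' m i + σ a * μ' m i, fun m j => b' m j = 0 ∧ μ' m j = 0,
    min β (σ 0 * κ), hd, hε0, ?_, ?_, ?_, ?_, ?_, ?_, ?_, hnot, hyes, ?_⟩
  · intro m i
    exact add_nonneg (hb m i).2 (mul_nonneg (hσ0 m) (hm m i).2)
  · intro m i
    exact add_nonneg (hb' m i).2 (mul_nonneg (hσ0 m) (hm' m i).2)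
  · intro a m i
    exact add_nonneg (hb m i).2 (mul_nonneg (hσ0 a) (hm m i).2)
  · intro a m i
    exact add_nonneg (hb' m i).2 (mul_nonneg (hσ0 a) (hm' m i).2)
  · exact lt_min hβ (mul_pos hσpos hκ)
  · rintro m i ⟨h3, h4⟩
    show b' m i + σ m * μ' m i = 0
    rw [h3, h4, mul_zero, add_zero]
  · intro a m i hZ
    show min β (σ 0 * κ) ≤ b' m i + σ a * μ' m i
    by_cases h3 : b' m i = 0
    · have h4 : μ' m i ≠ 0 := fun h4 => hZ ⟨h3, h4⟩
      have h5 : κ ≤ μ' m i := by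
        rcases (hm' m i).1 with h6 | h6
        · exact absurd h6 h4
        · exact hκ1 _ h6 (lt_of_le_of_ne (hm' m i).2 (Ne.symm h4))
      have h6 : σ 0 * κ ≤ σ a * μ' m i :=
        mul_le_mul (hσle a) h5 hκ.le (hσ0 a)
      rw [h3, zero_add]
      exact (min_le_right _ _).trans h6
    · have h5 : β ≤ b' m i := by
        rcases (hb' m i).1 with h6 | h6
        · exact absurd h6 h3
        · exact hβ1 _ h6 (lt_of_le_of_ne (hb' m i).2 (Ne.symm h3))
      have h6 := mul_nonneg (hσ0 a) (hm' m i).2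
      exact (min_le_left _ _).trans (by linarith)
  · intro K P φ hφ f g
    obtain ⟨s, hs, hmono⟩ := Helper31.Toric.mono_subseq_finset
      (ι := Unit ⊕ ((Fin K ⊕ Fin K) ⊕ (Fin P ⊕ Fin P))) Finset.univ
      (Sum.elim (fun _ m => ε (φ m)) (Sum.elim (Sum.elim (fun i m => b (φ m) (f m i))
        (fun i m => μ (φ m) (f m i))) (Sum.elim (fun i m => b' (φ m) (g m i))
        (fun i m => μ' (φ m) (g m i)))))
      (Sum.elim (fun _ => E) (Sum.elim (Sum.elim (fun _ => insert 0 Γ₁) (fun _ => insert 0 Γ₂))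
        (Sum.elim (fun _ => insert 0 Γ₁) (fun _ => insert 0 Γ₂))))
      (by
        rintro (i | (i | i) | (i | i))
        · exact hE
        · exact dcc_insert h1
        · exact dcc_insert h2
        · exact dcc_insert h1
        · exact dcc_insert h2)
      (by
        rintro (i | (i | i) | (i | i)) m
        · exact hε _
        · exact (hb _ _).1
        · exact (hm _ _).1
        · exact (hb' _ _).1
        · exact (hm' _ _).1)
    have mε : Monotone ((fun m => ε (φ m)) ∘ s) := hmono (Sum.inl ()) (Finset.mem_univ _)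
    have mb : ∀ i, Monotone ((fun m => b (φ m) (f m i)) ∘ s) := fun i =>
      hmono (Sum.inr (Sum.inl (Sum.inl i))) (Finset.mem_univ _)
    have mm : ∀ i, Monotone ((fun m => μ (φ m) (f m i)) ∘ s) := fun i =>
      hmono (Sum.inr (Sum.inl (Sum.inr i))) (Finset.mem_univ _)
    have mb' : ∀ i, Monotone ((fun m => b' (φ m) (g m i)) ∘ s) := fun i =>
      hmono (Sum.inr (Sum.inr (Sum.inl i))) (Finset.mem_univ _)
    have mm' : ∀ i, Monotone ((fun m => μ' (φ m) (g m i)) ∘ s) := fun i =>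
      hmono (Sum.inr (Sum.inr (Sum.inr i))) (Finset.mem_univ _)
    refine ⟨s, hs, fun a b hab => mε hab, fun a δ hδ => ?_⟩
    filter_upwards [eventually_ge_atTop a] with c hac
    refine ⟨fun i => ?_, fun i => ?_⟩
    · show b (φ (s a)) (f (s a) i) + σ (φ (s a)) * μ (φ (s a)) (f (s a) i) ≤
        b (φ (s c)) (f (s c) i) + σ (φ (s a)) * μ (φ (s c)) (f (s c) i) + δ
      have h3 : b (φ (s a)) (f (s a) i) ≤ b (φ (s c)) (f (s c) i) := mb i hac
      have h4 : μ (φ (s a)) (f (s a) i) ≤ μ (φ (s c)) (f (s c) i) := mm i hac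
      have h5 := mul_le_mul_of_nonneg_left h4 (hσ0 (φ (s a)))
      linarith
    · show b' (φ (s a)) (g (s a) i) + σ (φ (s a)) * μ' (φ (s a)) (g (s a) i) ≤
        b' (φ (s c)) (g (s c) i) + σ (φ (s a)) * μ' (φ (s c)) (g (s c) i) + δ
      have h3 : b' (φ (s a)) (g (s a) i) ≤ b' (φ (s c)) (g (s c) i) := mb' i hac
      have h4 : μ' (φ (s a)) (g (s a) i) ≤ μ' (φ (s c)) (g (s c) i) := mm' i hac
      have h5 := mul_le_mul_of_nonneg_left h4 (hσ0 (φ (s a)))
      linarith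

theorem acc_thresholds (d A : ℕ) {E Γ₁ Γ₂ : Set ℝ} (hE : DCC E) (h1 : DCC Γ₁) (h2 : DCC Γ₂) :
    ACC (thresholds d A E Γ₁ Γ₂) := by
  rintro ⟨t, ht, hmem⟩
  have hmem' : ∀ m, ∃ n, n ≤ d ∧ PP A n E Γ₁ Γ₂ (t m) := by
    intro m
    obtain ⟨ε, hε, n, r, q, p, v, a, γ, C, h, b, μ, b', μ', hn, hrest⟩ := hmem m
    exact ⟨n, hn, ε, hε, r, q, p, v, a, γ, C, h, b, μ, b', μ', hrest⟩
  choose n hn hP using hmem'
  obtain ⟨K, hK⟩ : ∃ K : ℕ, ∃ᶠ m in atTop, n m = K := by
    by_contra hcon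
    push Not at hcon
    have h3 : ∀ᶠ m in atTop, ∀ K ∈ Finset.range (d + 1), ¬ n m = K := by
      rw [Filter.eventually_all_finset]
      intro K _
      exact hcon K
    obtain ⟨m, hm⟩ := h3.exists
    exact hm (n m) (Finset.mem_range.mpr (Nat.lt_succ_of_le (hn m))) rfl
  obtain ⟨φ, hφ, hφK⟩ := Filter.extraction_of_frequently_atTop hK
  refine acc_one A K hE h1 h2 (t ∘ φ) (ht.comp hφ) (fun m => ?_)
  have := hP (φ m)
  rw [hφK m] at this
  exact this

end Pool.Agent.Helper98.Sph
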