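import Pool.Agent.Helper31.Toric.Main

/-!
# Integer matrices along a subsequence, and a first limit argument

`exists_nonincr`: `mono_subseq_finset` (Pool/Agent/Helper31/Toric/Main.lean) for
`fun i m => ((A - g m i : ℤ) : ℝ)`, whose values are natural numbers (a DCC set).
`core_bound`: along a subsequence the matrices are non-increasing; `exists_limit` gives an index
`a`, and later indices `j` with `μ ∈ H j` near `l a`; then `∑ i, μ i * g j t i ≤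
∑ i, μ i * g a t i < 1` is an integer, hence `≤ 0`.
-/

open Finset Filter Topology

namespace Pool.Agent.Helper98.Sph

open Pool.Agent.Helper31.Toric (intVec exists_limit)

private theorem dcc_nat : Pool.Agent.Helper31.Toric.DCC (Set.range (fun m : ℕ => (m : ℝ))) := by
  rintro ⟨f, hf, hm⟩
  choose g hg using hm
  have h1 : ∀ n, g (n + 1) < g n := by
    intro n
    have h2 := hf (Nat.lt_succ_self n)
    have h3 : f (n + 1) < f n := h2
    rw [← hg, ← hg] at h3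
    have h4 : ((g (n + 1) : ℕ) : ℝ) < ((g n : ℕ) : ℝ) := h3
    exact_mod_cast h4
  have h2 : ∀ n, g n + n ≤ g 0 := by
    intro n
    induction n with
    | zero => simp
    | succ n ih =>
      have := h1 n
      omega
  have h3 := h2 (g 0 + 1)
  omega

theorem exists_nonincr {ι : Type} [Fintype ι] [DecidableEq ι] (A : ℤ) (g : ℕ → ι → ℤ)
    (hg : ∀ m i, g m i ≤ A) :
    ∃ φ : ℕ → ℕ, StrictMono φ ∧ ∀ a b, a ≤ b → ∀ i, g (φ b) i ≤ g (φ a) i := by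
  obtain ⟨φ, hφ, hM⟩ := Pool.Agent.Helper31.Toric.mono_subseq_finset (ι := ι) Finset.univ
    (fun i m => (((A - g m i).toNat : ℕ) : ℝ)) (fun _ => Set.range (fun m : ℕ => (m : ℝ)))
    (fun _ => dcc_nat) (fun i m => ⟨(A - g m i).toNat, rfl⟩)
  refine ⟨φ, hφ, fun a b hab i => ?_⟩
  have h1 := hM i (Finset.mem_univ i) hab
  have h2 : (((A - g (φ a) i).toNat : ℕ) : ℝ) ≤ (((A - g (φ b) i).toNat : ℕ) : ℝ) := h1
  have h3 : (A - g (φ a) i).toNat ≤ (A - g (φ b) i).toNat := by exact_mod_cast h2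
  have h4 := hg (φ a) i
  have h5 := hg (φ b) i
  omega

theorem exists_near {k q : ℕ} (g : Fin q → Fin k → ℤ) (l : Fin k → ℝ)
    (hl : ∀ t, ∑ i, l i * (g t i : ℝ) ≤ 0) :
    ∃ δ : ℝ, 0 < δ ∧ ∀ μ : EuclideanSpace ℝ (Fin k), ‖μ - WithLp.toLp 2 l‖ < δ →
      ∀ t, ∑ i, μ i * (g t i : ℝ) < 1 := by
  have h : ∀ᶠ μ : EuclideanSpace ℝ (Fin k) in 𝓝 (WithLp.toLp 2 l : EuclideanSpace ℝ (Fin k)),
      ∀ t, ∑ i, μ i * (g t i : ℝ) < 1 := by
    rw [Filter.eventually_all]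
    intro t
    have hc : Continuous (fun μ : EuclideanSpace ℝ (Fin k) => ∑ i, μ i * (g t i : ℝ)) := by
      fun_prop
    refine hc.continuousAt.eventually_lt continuousAt_const ?_
    exact lt_of_le_of_lt (hl t) one_pos
  obtain ⟨δ, hδ, h1⟩ := Metric.eventually_nhds_iff.1 h
  exact ⟨δ, hδ, fun μ hμ => h1 (by rw [dist_eq_norm]; exact hμ)⟩

theorem nonpos_of_near {k q : ℕ} {g g' : Fin q → Fin k → ℤ} {μ : Fin k → ℝ}
    (hμ : ∀ i, 0 ≤ μ i) (hg : ∀ t i, g' t i ≤ g t i) (h : ∀ t, ∑ i, μ i * (g t i : ℝ) < 1)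
    (hint : ∀ t, ∃ z : ℤ, ∑ i, μ i * (g' t i : ℝ) = z) :
    ∀ t, ∑ i, μ i * (g' t i : ℝ) ≤ 0 := by
  intro t
  obtain ⟨z, hz⟩ := hint t
  have h1 : ∑ i, μ i * (g' t i : ℝ) ≤ ∑ i, μ i * (g t i : ℝ) :=
    Finset.sum_le_sum fun i _ => mul_le_mul_of_nonneg_left (by exact_mod_cast hg t i) (hμ i)
  have h2 := lt_of_le_of_lt h1 (h t)
  rw [hz] at h2 ⊢
  have h3 : z < 1 := by exact_mod_cast h2
  have h4 : z ≤ 0 := by omega
  exact_mod_cast h4

private theorem exists_lower {k : ℕ} (f : Fin k → ℝ) (hf : ∀ i, 0 < f i) :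
    ∃ c : ℝ, 0 < c ∧ ∀ i, c ≤ f i := by
  rcases Nat.eq_zero_or_pos k with h | h
  · subst h
    exact ⟨1, one_pos, fun i => i.elim0⟩
  · have : Nonempty (Fin k) := ⟨⟨0, h⟩⟩
    obtain ⟨i, hi⟩ := Finite.exists_min f
    exact ⟨f i, hf i, hi⟩

theorem core_bound {k q A : ℕ} (g : ℕ → Fin q → Fin k → ℤ)
    (H : ℕ → AddSubgroup (EuclideanSpace ℝ (Fin k))) (c : ℕ → ℝ)
    (hH : ∀ n, ∀ z : Fin k → ℤ, intVec z ∈ H n) (hg : ∀ n t i, g n t i ≤ A)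
    (hgint : ∀ n, ∀ μ ∈ H n, ∀ t, ∃ z : ℤ, ∑ i, μ i * (g n t i : ℝ) = z)
    (l : ℕ → Fin k → ℝ) (hl : ∀ n i, 0 < l n i)
    (hlH : ∀ n, (WithLp.toLp 2 (l n) : EuclideanSpace ℝ (Fin k)) ∈ H n)
    (hlV : ∀ n t, ∑ i, l n i * (g n t i : ℝ) ≤ 0)
    (hbd : ∀ n, ∀ μ ∈ H n, ∀ δ : ℝ, 0 < δ → (∀ i, δ ≤ μ i) →
      (∀ t, ∑ i, μ i * (g n t i : ℝ) ≤ 0) → c n * δ ≤ A * ∑ i, μ i) :
    ∃ N : ℝ, ∃ᶠ n in atTop, c n ≤ N := by
  obtain ⟨φ, hφ, hφg⟩ := exists_nonincr (ι := Fin q × Fin k) (A : ℤ)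
    (fun m x => g m x.1 x.2) (fun m x => hg m x.1 x.2)
  obtain ⟨a, ha⟩ := exists_limit (fun n => H (φ n)) (fun n => hH (φ n))
  obtain ⟨lam, hlam, hlam'⟩ := exists_lower (l (φ a)) (hl (φ a))
  obtain ⟨δv, hδv, hnv⟩ := exists_near (g (φ a)) (l (φ a)) (hlV (φ a))
  obtain ⟨δ, hδ, hδ1, hδ2, hδ3⟩ : ∃ δ : ℝ, 0 < δ ∧ δ ≤ lam / 2 ∧ δ ≤ 1 ∧ δ ≤ δv :=
    ⟨min δv (min (lam / 2) 1), lt_min hδv (lt_min (by positivity) one_pos),
      (min_le_right _ _).trans (min_le_left _ _), (min_le_right _ _).trans (min_le_right _ _),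
      min_le_left _ _⟩
  refine ⟨A * ∑ i, (l (φ a) i + 1) / (lam / 2), ?_⟩
  have hfr : ∃ᶠ j in atTop, c (φ j) ≤ A * ∑ i, (l (φ a) i + 1) / (lam / 2) := by
    refine ((ha _ (hlH (φ a)) δ hδ).and_eventually (eventually_gt_atTop a)).mono ?_
    rintro j ⟨⟨μ, hμH, hμδ⟩, hj⟩
    have hμl : ∀ i, |μ i - l (φ a) i| < δ := by
      intro i
      refine lt_of_le_of_lt ?_ hμδ
      have := PiLp.norm_apply_le (μ - WithLp.toLp 2 (l (φ a))) i
      rwa [PiLp.sub_apply, Real.norm_eq_abs] at this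
    have hμ2 : ∀ i, lam / 2 ≤ μ i := by
      intro i
      have h3 := hμl i
      rw [abs_lt] at h3
      have h5 := hlam' i
      linarith [h3.1]
    have hμ0 : ∀ i, 0 < μ i := fun i => lt_of_lt_of_le (by positivity) (hμ2 i)
    have hV : ∀ t, ∑ i, μ i * (g (φ j) t i : ℝ) ≤ 0 :=
      nonpos_of_near (g := g (φ a)) (g' := g (φ j)) (μ := fun i => μ i)
        (fun i => (hμ0 i).le) (fun t i => hφg a j hj.le (t, i)) (hnv μ (lt_of_lt_of_le hμδ hδ3))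
        (hgint _ μ hμH)
    have h1 := hbd (φ j) μ hμH (lam / 2) (by positivity) hμ2 hV
    have h2 : ∑ i, μ i ≤ ∑ i, (l (φ a) i + 1) := by
      refine Finset.sum_le_sum fun i _ => ?_
      have h3 := hμl i
      rw [abs_lt] at h3
      linarith [h3.2]
    have h3 : (A : ℝ) * ∑ i, μ i ≤ A * ∑ i, (l (φ a) i + 1) :=
      mul_le_mul_of_nonneg_left h2 (Nat.cast_nonneg _)
    rw [← Finset.sum_div, ← mul_div_assoc, le_div_iff₀ (by positivity)]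
    exact h1.trans h3
  exact hφ.tendsto_atTop.frequently hfr

end Pool.Agent.Helper98.Sph
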