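import Pool.Agent.Helper98.Sph.Defs
import Pool.Agent.Helper98.Sph.Sub
import Pool.Agent.Helper98.Germ.SetLim

/-!
# The limit argument for spherical varieties

As `core` in Pool/Agent/Helper98/Germ/Core.lean. Along a subsequence the coefficients `aa n i` and
the pairings `g n t i` with the spherical roots are non-increasing, so the approximations of
`l a` by later members of the sequence are again in the valuation cone.
-/

open Finset Filter Topology

namespace Pool.Agent.Helper98.Sph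

open Pool.Agent.Helper31.Toric (intVec coefGroup exists_limit)
open Pool.Agent.Helper98.Germ (dot val val_le exists_val_eq exists_setlim)

private theorem core_min {m : ℕ} (f : Fin m → ℝ) : ∃ c : ℝ, 0 < c ∧ ∀ t, 0 < f t → c ≤ f t := by
  classical
  rcases (univ.filter fun t => 0 < f t).eq_empty_or_nonempty with h | h
  · refine ⟨1, one_pos, fun t ht => ?_⟩
    have h1 : t ∈ (univ.filter fun t => 0 < f t) := Finset.mem_filter.2 ⟨Finset.mem_univ _, ht⟩
    rw [h] at h1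
    exact absurd h1 (Finset.notMem_empty _)
  · obtain ⟨t₀, h0, h1⟩ := Finset.exists_min_image _ f h
    exact ⟨f t₀, (Finset.mem_filter.1 h0).2, fun t ht =>
      h1 t (Finset.mem_filter.2 ⟨Finset.mem_univ _, ht⟩)⟩

private theorem continuous_val {k : ℕ} (E : Finset (Fin k → ℕ)) : Continuous (val E) := by
  by_cases h : E.Nonempty
  · have h1 : Germ.val E = fun μ => E.inf' h (fun α => dot α μ) := by
      funext μ
      unfold Germ.val
      rw [dif_pos h]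
    rw [h1]
    apply Continuous.finset_inf'_apply
    intro α _
    unfold dot
    exact continuous_finsetSum _ fun i _ => continuous_const.mul (continuous_apply i)
  · have h1 : Germ.val E = fun _ => 0 := by
      funext μ
      unfold Germ.val
      rw [dif_neg h]
    rw [h1]
    exact continuous_const

private theorem dot_nonneg {k : ℕ} (α : Fin k → ℕ) {μ : Fin k → ℝ} (hμ : ∀ i, 0 ≤ μ i) :
    0 ≤ dot α μ :=
  Finset.sum_nonneg fun i _ => mul_nonneg (Nat.cast_nonneg _) (hμ i)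

private theorem val_nonneg {k : ℕ} {E : Finset (Fin k → ℕ)} (hE : E.Nonempty) {μ : Fin k → ℝ}
    (hμ : ∀ i, 0 ≤ μ i) : 0 ≤ val E μ := by
  obtain ⟨α, _, h⟩ := exists_val_eq hE μ
  rw [← h]
  exact dot_nonneg α hμ

private theorem dot_mono {k : ℕ} {α α' : Fin k → ℕ} (h : ∀ i, α' i ≤ α i) {μ : Fin k → ℝ}
    (hμ : ∀ i, 0 ≤ μ i) : dot α' μ ≤ dot α μ :=
  Finset.sum_le_sum fun i _ =>
    mul_le_mul_of_nonneg_right (by exact_mod_cast h i) (hμ i)

private theorem dot_ge {k : ℕ} (α : Fin k → ℕ) {μ : Fin k → ℝ} {x : ℝ} (hμ : ∀ i, x ≤ μ i) :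
    ((∑ i, α i : ℕ) : ℝ) * x ≤ dot α μ := by
  unfold dot
  push_cast
  rw [Finset.sum_mul]
  exact Finset.sum_le_sum fun i _ => mul_le_mul_of_nonneg_left (hμ i) (Nat.cast_nonneg _)

/-- the comparison of the log discrepancies -/
private theorem core_step {k P A : ℕ} {aa ab : Fin k → ℕ} {B G μ : Fin k → ℝ} {C G' : Fin P → ℝ}
    {Ea Eb : Fin P → Finset (Fin k → ℕ)} {lam c₁ δ Λ : ℝ} {R : ℕ}
    (hab : ∀ i, ab i ≤ aa i) (hA : ∀ i, ab i ≤ A)
    (hEa : ∀ t, (Ea t).Nonempty) (hEb : ∀ t, (Eb t).Nonempty)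
    (hG0 : ∀ i, 0 ≤ G i) (hC0 : ∀ t, 0 ≤ C t) (hG0' : ∀ t, 0 ≤ G' t)
    (hlam : 0 < lam) (hμ : ∀ i, lam / 2 ≤ μ i) (hc₁ : 0 < c₁) (hc : ∀ t, 0 < C t → c₁ ≤ C t)
    (hδ : 0 < δ) (hδc : δ ≤ c₁ / 2) (hΛ : A * ∑ i, μ i ≤ Λ) (hR : 4 * Λ / (c₁ * lam) ≤ R)
    (hB : ∀ i, B i ≤ G i + δ) (hC : ∀ t, C t ≤ G' t + δ)
    (hset : ∀ t, ∀ α ∈ Eb t, ∑ i, α i ≤ R → ∃ α' ∈ Ea t, ∀ i, α' i ≤ α i)
    (hpos : 0 ≤ total ab G G' Eb μ) :
    total ab G G' Eb μ ≤ total aa B C Ea μ + δ * (∑ i, μ i + ∑ t, val (Ea t) μ) := by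
  have hμ0 : ∀ i, 0 ≤ μ i := fun i => by
    have := hμ i
    linarith
  have h1 : ∑ i, μ i * ((ab i : ℝ) - G i) ≤ ∑ i, μ i * ((aa i : ℝ) - B i) + δ * ∑ i, μ i := by
    rw [Finset.mul_sum, ← Finset.sum_add_distrib]
    refine Finset.sum_le_sum fun i _ => ?_
    have h2 := mul_le_mul_of_nonneg_left (hB i) (hμ0 i)
    have h3 : (ab i : ℝ) ≤ aa i := by exact_mod_cast hab i
    have h4 := mul_le_mul_of_nonneg_left h3 (hμ0 i)
    linarith
  have h2 : ∑ i, μ i * ((ab i : ℝ) - G i) ≤ A * ∑ i, μ i := by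
    rw [Finset.mul_sum]
    refine Finset.sum_le_sum fun i _ => ?_
    have h3 := mul_nonneg (hμ0 i) (hG0 i)
    have h4 : (ab i : ℝ) ≤ A := by exact_mod_cast hA i
    have h5 := mul_le_mul_of_nonneg_left h4 (hμ0 i)
    linarith
  have key : ∀ t, C t * val (Ea t) μ ≤ G' t * val (Eb t) μ + δ * val (Ea t) μ := by
    intro t
    have hva := val_nonneg (hEa t) hμ0
    have hvb := val_nonneg (hEb t) hμ0
    rcases (hC0 t).eq_or_lt with h0 | h0
    · rw [← h0, zero_mul]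
      have h3 := mul_nonneg (hG0' t) hvb
      have h4 := mul_nonneg hδ.le hva
      linarith
    · have hct := hc t h0
      have hG : c₁ / 2 ≤ G' t := by
        have := hC t
        linarith
      have h3 : G' t * val (Eb t) μ ≤ Λ := by
        have h4 : G' t * val (Eb t) μ ≤ ∑ t, G' t * val (Eb t) μ :=
          Finset.single_le_sum (f := fun t => G' t * val (Eb t) μ)
            (fun t _ => mul_nonneg (hG0' t) (val_nonneg (hEb t) hμ0)) (Finset.mem_univ t)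
        unfold total at hpos
        linarith
      obtain ⟨α, hα, hval⟩ := exists_val_eq (hEb t) μ
      have h5 : ((∑ i, α i : ℕ) : ℝ) * (lam / 2) ≤ val (Eb t) μ := by
        rw [← hval]
        exact dot_ge α hμ
      have h6 : c₁ / 2 * val (Eb t) μ ≤ Λ :=
        (mul_le_mul_of_nonneg_right hG hvb).trans h3
      have h7 : ((∑ i, α i : ℕ) : ℝ) ≤ R := by
        refine le_trans ?_ hR
        rw [le_div_iff₀ (by positivity)]
        have h8 := mul_le_mul_of_nonneg_left h5 (show 0 ≤ c₁ / 2 by positivity)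
        nlinarith
      obtain ⟨α', hα', hle⟩ := hset t α hα (by exact_mod_cast h7)
      have h8 : val (Ea t) μ ≤ val (Eb t) μ := by
        rw [← hval]
        exact (val_le hα' μ).trans (dot_mono hle hμ0)
      have h9 := mul_le_mul_of_nonneg_right (hC t) hva
      have h10 := mul_le_mul_of_nonneg_left h8 (hG0' t)
      linarith
  have h3 : ∑ t, C t * val (Ea t) μ ≤
      ∑ t, G' t * val (Eb t) μ + δ * ∑ t, val (Ea t) μ := by
    rw [Finset.mul_sum, ← Finset.sum_add_distrib]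
    exact Finset.sum_le_sum fun t _ => key t
  unfold total
  rw [mul_add]
  linarith

private theorem continuous_total {k P : ℕ} (a : Fin k → ℕ) (b : Fin k → ℝ) (c : Fin P → ℝ)
    (E : Fin P → Finset (Fin k → ℕ)) : Continuous (total a b c E) := by
  unfold total
  exact (continuous_finsetSum _ fun i _ => (continuous_apply i).mul continuous_const).sub
    (continuous_finsetSum _ fun t _ => continuous_const.mul (continuous_val (E t)))

theorem core {k P q A : ℕ} (ε : ℕ → ℝ) (aa : ℕ → Fin k → ℕ) (g : ℕ → Fin q → Fin k → ℤ)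
    (B : ℕ → Fin k → ℝ) (G : ℕ → ℕ → Fin k → ℝ)
    (C : ℕ → Fin P → ℝ) (G' : ℕ → ℕ → Fin P → ℝ) (E : ℕ → Fin P → Finset (Fin k → ℕ))
    (H : ℕ → AddSubgroup (EuclideanSpace ℝ (Fin k))) (haa : ∀ n i, aa n i ≤ A)
    (hg : ∀ n t i, g n t i ≤ A)
    (hgint : ∀ n, ∀ μ ∈ H n, ∀ t, ∃ z : ℤ, ∑ i, μ i * (g n t i : ℝ) = z)
    (hE : ∀ n t, (E n t).Nonempty)
    (hε : ∀ n, 0 ≤ ε n) (hG0 : ∀ a n i, 0 ≤ G a n i) (hC0 : ∀ n t, 0 ≤ C n t)
    (hG0' : ∀ a n t, 0 ≤ G' a n t) (hH : ∀ n, ∀ z : Fin k → ℤ, intVec z ∈ H n)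
    (l : ℕ → Fin k → ℝ) (hl : ∀ n i, 0 < l n i)
    (hlH : ∀ n, (WithLp.toLp 2 (l n) : EuclideanSpace ℝ (Fin k)) ∈ H n)
    (hlV : ∀ n t, ∑ i, l n i * (g n t i : ℝ) ≤ 0)
    (hlt : ∀ n, total (aa n) (B n) (C n) (E n) (l n) < ε n)
    (hge : ∀ a j, a < j → ∀ μ ∈ H j, (∀ i, 0 < μ i) → (∀ t, ∑ i, μ i * (g j t i : ℝ) ≤ 0) →
      ε j ≤ total (aa j) (G a j) (G' a j) (E j) (fun i => μ i))
    (hsel : ∀ φ : ℕ → ℕ, StrictMono φ → ∃ h : ℕ → ℕ, StrictMono h ∧
      (∀ a b, a ≤ b → ε (φ (h a)) ≤ ε (φ (h b))) ∧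
      ∀ a, ∀ δ : ℝ, 0 < δ → ∀ᶠ b in atTop,
        (∀ i, B (φ (h a)) i ≤ G (φ (h a)) (φ (h b)) i + δ) ∧
        ∀ t, C (φ (h a)) t ≤ G' (φ (h a)) (φ (h b)) t + δ) : False := by
  classical
  obtain ⟨φ₁, hφ₁, hφg⟩ := exists_nonincr (ι := (Fin q × Fin k) ⊕ Fin k) (A : ℤ)
    (fun m => Sum.elim (fun x => g m x.1 x.2) (fun i => (aa m i : ℤ)))
    (by
      rintro m (x | i)
      · exact hg m x.1 x.2
      · simp only [Sum.elim_inr]
        exact_mod_cast haa m i)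
  have hgm : ∀ a b, a ≤ b → ∀ t i, g (φ₁ b) t i ≤ g (φ₁ a) t i := fun a b hab t i =>
    hφg a b hab (Sum.inl (t, i))
  have ham : ∀ a b, a ≤ b → ∀ i, aa (φ₁ b) i ≤ aa (φ₁ a) i := fun a b hab i => by
    have h1 := hφg a b hab (Sum.inr i)
    simp only [Sum.elim_inr] at h1
    exact_mod_cast h1
  obtain ⟨φ₂, hφ₂, hset⟩ := exists_setlim (fun n => E (φ₁ n))
  obtain ⟨φ, hφdef⟩ : ∃ φ : ℕ → ℕ, φ = fun n => φ₁ (φ₂ n) := ⟨_, rfl⟩
  have hφ : StrictMono φ := by
    rw [hφdef]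
    exact hφ₁.comp hφ₂
  have hgm' : ∀ a b, a ≤ b → ∀ t i, g (φ b) t i ≤ g (φ a) t i := fun a b hab t i => by
    rw [hφdef]
    exact hgm _ _ (hφ₂.monotone hab) t i
  have ham' : ∀ a b, a ≤ b → ∀ i, aa (φ b) i ≤ aa (φ a) i := fun a b hab i => by
    rw [hφdef]
    exact ham _ _ (hφ₂.monotone hab) i
  have hset' : ∀ (a R : ℕ), ∀ᶠ b in atTop, ∀ t, ∀ α ∈ E (φ b) t,
      ∑ i, α i ≤ R → ∃ α' ∈ E (φ a) t, ∀ i, α' i ≤ α i := by
    rw [hφdef]
    exact hset
  obtain ⟨h, hh, hmono, hev⟩ := hsel φ hφ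
  obtain ⟨a, ha⟩ := exists_limit (fun n => H (φ (h n))) (fun n => hH (φ (h n)))
  obtain ⟨lam, hlam, hlam'⟩ := core_min (l (φ (h a)))
  obtain ⟨c₁, hc₁, hc⟩ := core_min (C (φ (h a)))
  obtain ⟨δv, hδv, hnv⟩ := exists_near (g (φ (h a))) (l (φ (h a))) (hlV (φ (h a)))
  obtain ⟨R, hR⟩ := exists_nat_ge (4 * (A * ∑ i, (l (φ (h a)) i + 1)) / (c₁ * lam))
  have hcont : Continuous fun p : ℝ × (Fin k → ℝ) =>
      total (aa (φ (h a))) (B (φ (h a))) (C (φ (h a))) (E (φ (h a))) p.2 +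
        p.1 * (∑ i, p.2 i + ∑ t, val (E (φ (h a)) t) p.2) := by
    refine ((continuous_total _ _ _ _).comp continuous_snd).add (continuous_fst.mul
      (Continuous.add ?_ ?_))
    · exact continuous_finsetSum _ fun i _ => (continuous_apply i).comp continuous_snd
    · exact continuous_finsetSum _ fun t _ => (continuous_val _).comp continuous_snd
  have hnear : ∀ᶠ p : ℝ × (Fin k → ℝ) in 𝓝 ((0 : ℝ), l (φ (h a))),
      total (aa (φ (h a))) (B (φ (h a))) (C (φ (h a))) (E (φ (h a))) p.2 +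
        p.1 * (∑ i, p.2 i + ∑ t, val (E (φ (h a)) t) p.2) < ε (φ (h a)) := by
    refine hcont.continuousAt.eventually_lt continuousAt_const ?_
    simp only [zero_mul, add_zero]
    exact hlt _
  rw [Metric.eventually_nhds_iff] at hnear
  obtain ⟨δ₀, hδ₀, hnear⟩ := hnear
  obtain ⟨δ, hδ, hδ1, hδ2, hδ3, hδ4, hδ5⟩ : ∃ δ : ℝ, 0 < δ ∧ δ < δ₀ ∧ δ ≤ lam / 2 ∧ δ ≤ 1 ∧
      δ ≤ c₁ / 2 ∧ δ ≤ δv := by
    refine ⟨min δv (min (min (δ₀ / 2) (lam / 2)) (min 1 (c₁ / 2))), ?_, ?_, ?_, ?_, ?_, ?_⟩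
    · exact lt_min hδv (lt_min (lt_min (by positivity) (by positivity))
        (lt_min one_pos (by positivity)))
    · exact lt_of_le_of_lt ((min_le_right _ _).trans ((min_le_left _ _).trans (min_le_left _ _)))
        (by linarith)
    · exact (min_le_right _ _).trans ((min_le_left _ _).trans (min_le_right _ _))
    · exact (min_le_right _ _).trans ((min_le_right _ _).trans (min_le_left _ _))
    · exact (min_le_right _ _).trans ((min_le_right _ _).trans (min_le_right _ _))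
    · exact min_le_left _ _
  obtain ⟨b, ⟨μ, hμH, hμδ⟩, hb, ⟨hB, hC⟩, hs⟩ := ((ha _ (hlH (φ (h a))) δ hδ).and_eventually
    ((eventually_gt_atTop a).and ((hev a δ hδ).and
      (hh.tendsto_atTop.eventually (hset' (h a) R))))).exists
  have hμl : ∀ i, |μ i - l (φ (h a)) i| < δ := by
    intro i
    refine lt_of_le_of_lt ?_ hμδ
    have := PiLp.norm_apply_le (μ - WithLp.toLp 2 (l (φ (h a)))) i
    rwa [PiLp.sub_apply, Real.norm_eq_abs] at this
  have hμ2 : ∀ i, lam / 2 ≤ μ i := by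
    intro i
    have h3 := hμl i
    rw [abs_lt] at h3
    have h5 := hlam' i (hl _ i)
    linarith [h3.1]
  have hμ0 : ∀ i, 0 < μ i := fun i => lt_of_lt_of_le (by positivity) (hμ2 i)
  have hV : ∀ t, ∑ i, μ i * (g (φ (h b)) t i : ℝ) ≤ 0 :=
    nonpos_of_near (g := g (φ (h a))) (g' := g (φ (h b))) (μ := fun i => μ i)
      (fun i => (hμ0 i).le) (hgm' _ _ (hh hb).le) (hnv μ (lt_of_lt_of_le hμδ hδ5))
      (hgint _ μ hμH)
  have hge' := hge _ _ (hφ (hh hb)) μ hμH hμ0 hV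
  have hstep := core_step (A := A) (μ := fun i => μ i) (ham' _ _ (hh hb).le) (haa (φ (h b)))
    (hE (φ (h a))) (hE (φ (h b)))
    (hG0 (φ (h a)) (φ (h b))) (hC0 (φ (h a))) (hG0' (φ (h a)) (φ (h b))) hlam hμ2 hc₁ hc hδ hδ4
    (Λ := A * ∑ i, (l (φ (h a)) i + 1)) (by
      refine mul_le_mul_of_nonneg_left (Finset.sum_le_sum fun i _ => ?_) (Nat.cast_nonneg _)
      have h3 := hμl i
      rw [abs_lt] at h3
      linarith [h3.2]) hR hB hC hs ((hε _).trans hge')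
  have hlast := hnear (y := (δ, fun i => μ i)) (by
    rw [Prod.dist_eq]
    refine max_lt ?_ ?_
    · change dist δ 0 < δ₀
      rw [Real.dist_eq, sub_zero, abs_of_pos hδ]
      exact hδ1
    · change dist (fun i => μ i) (l (φ (h a))) < δ₀
      rw [dist_pi_lt_iff hδ₀]
      intro i
      rw [Real.dist_eq]
      exact (hμl i).trans hδ1)
  have hm := hmono a b hb.le
  dsimp only at hlast
  linarith

end Pool.Agent.Helper98.Sph
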