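import Pool.Agent.Helper98.Sph.Acc
import Pool.Agent.Helper31.Toric.Decomp

/-!
# Decomposed complements on spherical varieties
-/

open Finset Filter Topology

namespace Pool.Agent.Helper98.Sph

open Pool.Agent.Helper31.Toric (rnd le_rnd rnd_le rnd_finite cell_le mono_subseq_finset)
open Pool.Agent.Helper98.Germ (dot val)

private theorem dcc_insert {Γ : Set ℝ} (hΓ : DCC Γ) : DCC (insert 0 Γ) := by
  rintro ⟨f, hf, hfm⟩
  by_cases h : ∃ m, f m = 0
  · obtain ⟨m, hm⟩ := h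
    refine hΓ ⟨fun k => f (k + (m + 1)), fun a b hab => hf (by omega), fun k => ?_⟩
    rcases hfm (k + (m + 1)) with h1 | h1
    · have h2 : f (k + (m + 1)) < f m := hf (by omega)
      exact absurd h1 (by rw [hm] at h2; exact h2.ne)
    · exact h1
  · push Not at h
    refine hΓ ⟨f, hf, fun k => ?_⟩
    rcases hfm k with h1 | h1
    · exact absurd h1 (h k)
    · exact h1

private theorem pos_lower {Γ : Set ℝ} (hΓ : DCC Γ) : ∃ c : ℝ, 0 < c ∧ ∀ x ∈ Γ, 0 < x → c ≤ x := by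
  by_cases h : ∃ x ∈ Γ, 0 < x
  · obtain ⟨x, _, hx2, hx3⟩ := Pool.Agent.Helper31.Toric.DCC.exists_min hΓ (fun x => 0 < x) h
    exact ⟨x, hx2, hx3⟩
  · push Not at h
    exact ⟨1, one_pos, fun x hx hx0 => absurd (h x hx) (not_le.2 hx0)⟩

private theorem rnd_zero {Γ : Set ℝ} (h0 : (0 : ℝ) ∈ Γ) {N : ℕ} (hN : 0 < N) : rnd Γ N 0 = 0 := by
  refine le_antisymm (rnd_le h0 fun x _ hx => ?_) (le_rnd hN h0)
  have hN' : (0 : ℝ) < N := by exact_mod_cast hN
  rw [zero_mul, Int.ceil_zero] at hx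
  have h1 := Int.le_ceil (x * N)
  rw [hx, Int.cast_zero] at h1
  by_contra hcon
  push Not at hcon
  have := mul_pos hcon hN'
  linarith

/-- for fine partitions the rounded values are close to later values -/
private theorem sel {Γ : Set ℝ} (hΓ : DCC Γ) {s : ℕ → ℝ} (hs : ∀ m, s m ∈ Γ) (hmono : Monotone s)
    (hb : ∀ m, s m ≤ 1) : ∃ M : ℕ, ∀ N : ℕ, M < N → ∀ a, ∀ δ : ℝ, 0 < δ →
      ∀ᶠ m in atTop, rnd Γ N (s a) ≤ s m + δ := by
  have hbdd : BddAbove (Set.range s) := ⟨1, by rintro _ ⟨m, rfl⟩; exact hb m⟩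
  obtain ⟨β, hβ⟩ : ∃ β, β = ⨆ m, s m := ⟨_, rfl⟩
  have hlim : Tendsto s atTop (𝓝 β) := by
    rw [hβ]
    exact tendsto_atTop_ciSup hmono hbdd
  have hle : ∀ m, s m ≤ β := fun m => by
    rw [hβ]
    exact le_ciSup hbdd m
  obtain ⟨η, hη, hηb⟩ : ∃ η : ℝ, 0 < η ∧ ∀ x ∈ Γ, x < β + η → x ≤ β := by
    by_cases hex : ∃ x ∈ Γ, β < x
    · obtain ⟨x, _, hx2, hx3⟩ := Pool.Agent.Helper31.Toric.DCC.exists_min hΓ (fun x => β < x) hex
      refine ⟨x - β, by linarith, fun z hz hlt => ?_⟩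
      by_contra hcon
      push Not at hcon
      have := hx3 z hz hcon
      linarith
    · push Not at hex
      exact ⟨1, one_pos, fun x hx _ => hex x hx⟩
  obtain ⟨M, hM⟩ := exists_nat_gt (1 / η)
  refine ⟨M, fun N hN a δ hδ => ?_⟩
  have hNpos : 0 < N := by omega
  have hr : rnd Γ N (s a) ≤ β := by
    refine rnd_le (hs a) fun x hx hcell => hηb x hx ?_
    have h1 := cell_le hNpos hcell
    have h2 := hle a
    have h3 : 1 / (N : ℝ) < η := by
      have h4 : 1 / η < (N : ℝ) := hM.trans (by exact_mod_cast hN)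
      rw [div_lt_iff₀ hη] at h4
      have h6 : (0 : ℝ) < N := by exact_mod_cast hNpos
      rw [div_lt_iff₀ h6]
      linarith
    linarith
  filter_upwards [Metric.tendsto_nhds.mp hlim δ hδ] with m hm
  rw [Real.dist_eq, abs_lt] at hm
  linarith [hm.1]

private theorem sel_fin {Γ : Set ℝ} (hΓ : DCC Γ) {K : ℕ} {s : Fin K → ℕ → ℝ}
    (hs : ∀ i m, s i m ∈ Γ) (hmono : ∀ i, Monotone (s i)) (hb : ∀ i m, s i m ≤ 1) :
    ∃ M : ℕ, ∀ N : ℕ, M < N → ∀ a, ∀ δ : ℝ, 0 < δ →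
      ∀ᶠ m in atTop, ∀ i, rnd Γ N (s i a) ≤ s i m + δ := by
  choose M hM using fun i => sel hΓ (hs i) (hmono i) (hb i)
  refine ⟨Finset.univ.sup M, fun N hN a δ hδ => ?_⟩
  rw [Filter.eventually_all]
  intro i
  exact hM i N (lt_of_le_of_lt (Finset.le_sup (Finset.mem_univ i)) hN) a δ hδ

/-- the coefficients are at most `1` -/
private theorem coef_le_one {n r q p A : ℕ} {ε : ℝ} {v : Fin r → Fin n → ℤ}
    {a : Fin r → ℕ} {γ : Fin q → Fin n → ℤ} {C : Fin p → Finset (Fin n → ℤ)}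
    {h : Fin p → Fin r → ℤ} {b : Fin r → ℝ} {b' : Fin p → ℝ} (hd : IsData A v a γ C h)
    (hc : Complementary ε v a γ C h b b') (hε : 0 ≤ ε)
    (hb0 : ∀ i, b i = 0 ∨ (a i = 1 ∧ v i ≠ 0 ∧ ∀ t, pair (γ t) (v i) ≤ 0))
    (hb' : ∀ k, 0 ≤ b' k) (i : Fin r) : b i ≤ 1 := by
  rcases hb0 i with h1 | ⟨h1, h2, h3⟩
  · rw [h1]
    exact zero_le_one
  · have h4 := (hc.le_total hd (fun _ : Fin 1 => i) (fun _ => 1) (fun _ => zero_le_one) (v i)
      (fun j => by simp) h3).1 h2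
    unfold total at h4
    simp only [Finset.univ_unique, Finset.sum_singleton, one_mul, h1, Nat.cast_one] at h4
    have h5 : 0 ≤ ∑ t, b' t * val (expo (fun _ : Fin 1 => v i) (C t) (fun _ => h t i))
        (fun _ => (1 : ℝ)) := by
      refine Finset.sum_nonneg fun t _ => mul_nonneg (hb' t) ?_
      unfold Pool.Agent.Helper98.Germ.val
      split_ifs with h6
      · refine Finset.le_inf' h6 _ fun α _ => ?_
        unfold dot
        exact Finset.sum_nonneg fun j _ => by positivity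
      · exact le_rfl
    linarith

theorem exists_decomposed (d A : ℕ) {E Γ : Set ℝ} (hE : DCC E) (hΓ : DCC Γ) :
    Decomposed d A E Γ := by
  classical
  by_contra hcon
  obtain ⟨Γ', hΓ'⟩ : ∃ Γ' : Set ℝ, Γ' = insert 0 Γ := ⟨_, rfl⟩
  have hD : DCC Γ' := by rw [hΓ']; exact dcc_insert hΓ
  have h0' : (0 : ℝ) ∈ Γ' := by rw [hΓ']; exact Set.mem_insert _ _
  have hin : ∀ x : ℝ, (x = 0 ∨ x ∈ Γ) → x ∈ Γ' := fun x hx => by rw [hΓ']; exact hx
  have hdata : ∀ m : ℕ, ∃ (n r q p : ℕ) (ε : ℝ) (v : Fin r → Fin n → ℤ) (a : Fin r → ℕ)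
      (γ : Fin q → Fin n → ℤ) (C : Fin p → Finset (Fin n → ℤ)) (h : Fin p → Fin r → ℤ)
      (b : Fin r → ℝ) (b' : Fin p → ℝ), n ≤ d ∧ IsData A v a γ C h ∧ ε ∈ E ∧ 0 ≤ ε ∧
      (∀ i, b i ∈ Γ' ∧ 0 ≤ b i ∧ b i ≤ 1) ∧ (∀ k, b' k ∈ Γ' ∧ 0 ≤ b' k ∧ b' k ≤ 1) ∧
      Complementary ε v a γ C h b b' ∧
      ¬ Complementary ε v a γ C h (fun i => rnd Γ' (m + 1) (b i))
        (fun k => rnd Γ' (m + 1) (b' k)) := by
    intro m
    by_contra hno
    apply hcon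
    refine ⟨_, rnd_finite Γ' (m + 1), ?_⟩
    intro n r q p ε v a γ C h b b' hn hd hε h0 hb0 hb hb' hc
    have hb1 : ∀ i, b i ≤ 1 := coef_le_one hd hc h0 hb0 fun k => (hb' k).2
    have hb1' : ∀ k, b' k ≤ 1 := fun k => by
      have := hc.1 k
      linarith
    by_contra hno'
    apply hno
    refine ⟨n, r, q, p, ε, v, a, γ, C, h, b, b', hn, hd, hε, h0,
      fun i => ⟨hin _ (hb i).1, (hb i).2, hb1 i⟩, fun k => ⟨hin _ (hb' k).1, (hb' k).2, hb1' k⟩,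
      hc, fun hC => hno' ⟨_, _, fun i => ⟨?_, ?_, ?_⟩, fun k => ⟨?_, ?_, ?_⟩, hC⟩⟩
    · exact le_rnd (Nat.succ_pos _) (hin _ (hb i).1)
    · exact ⟨_, hin _ (hb i).1, (hb i).2, hb1 i, rfl⟩
    · intro h1
      simp only [h1]
      exact rnd_zero h0' (Nat.succ_pos _)
    · exact le_rnd (Nat.succ_pos _) (hin _ (hb' k).1)
    · exact ⟨_, hin _ (hb' k).1, (hb' k).2, hb1' k, rfl⟩
    · intro h1
      simp only [h1]
      exact rnd_zero h0' (Nat.succ_pos _)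
  choose n hrest using hdata
  have hnd : ∀ m, n m ≤ d := fun m => by
    obtain ⟨_, _, _, _, _, _, _, _, _, _, _, h1, _⟩ := hrest m
    exact h1
  -- a constant rank
  obtain ⟨n₀, hn₀⟩ : ∃ n₀ : ℕ, ∃ᶠ m in atTop, n m = n₀ := by
    by_contra hcon'
    push Not at hcon'
    have h3 : ∀ᶠ m in atTop, ∀ q ∈ Finset.range (d + 1), ¬ n m = q := by
      rw [Filter.eventually_all_finset]
      intro q _
      exact hcon' q
    obtain ⟨m, hm⟩ := h3.exists
    exact hm (n m) (Finset.mem_range.mpr (Nat.lt_succ_of_le (hnd m))) rfl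
  obtain ⟨θ, hθ, hθn⟩ := Filter.extraction_of_frequently_atTop hn₀
  have key : ∀ m : ℕ, ∃ (r q p : ℕ) (ε : ℝ) (v : Fin r → Fin n₀ → ℤ) (a : Fin r → ℕ)
      (γ : Fin q → Fin n₀ → ℤ) (C : Fin p → Finset (Fin n₀ → ℤ)) (h : Fin p → Fin r → ℤ)
      (b : Fin r → ℝ) (b' : Fin p → ℝ), n₀ ≤ d ∧ IsData A v a γ C h ∧ ε ∈ E ∧ 0 ≤ ε ∧
      (∀ i, b i ∈ Γ' ∧ 0 ≤ b i ∧ b i ≤ 1) ∧ (∀ k, b' k ∈ Γ' ∧ 0 ≤ b' k ∧ b' k ≤ 1) ∧
      Complementary ε v a γ C h b b' ∧
      ¬ Complementary ε v a γ C h (fun i => rnd Γ' (θ m + 1) (b i))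
        (fun k => rnd Γ' (θ m + 1) (b' k)) := by
    intro m
    have h1 := hrest (θ m)
    rw [hθn m] at h1
    exact h1
  choose r q p ε v a γ C h b b' _ hdat hεE hε0 hb hb' hlc hnlc using key
  obtain ⟨c₀, hc₀, hc₀'⟩ := pos_lower hD
  refine Fam.false (n := n₀)
    { A := A, r := r, q := q, p := p, v := v, a := a, γ := γ, C := C, h := h, ε := ε
      B := fun m i => rnd Γ' (θ m + 1) (b m i)
      B' := fun m j => rnd Γ' (θ m + 1) (b' m j)
      G := fun _ m => b m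
      G' := fun _ m => b' m
      Z := fun m j => b' m j = 0
      c₀ := c₀
      data := hdat
      hε := hε0
      hB0 := fun m i => (hb m i).2.1.trans (le_rnd (Nat.succ_pos _) (hb m i).1)
      hB0' := fun m j => (hb' m j).2.1.trans (le_rnd (Nat.succ_pos _) (hb' m j).1)
      hG0 := fun _ m i => (hb m i).2.1
      hG0' := fun _ m j => (hb' m j).2.1
      hc₀ := hc₀
      hZB := fun m j hj => by rw [hj]; exact rnd_zero h0' (Nat.succ_pos _)
      hZG := fun _ m j hj => hc₀' _ (hb' m j).1 (lt_of_le_of_ne (hb' m j).2.1 (Ne.symm hj))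
      hnot := hnlc
      hyes := fun _ m _ => hlc m
      hsel := ?_ }
  intro K P φ hφ f g
  obtain ⟨h₀, hh₀, hm₀⟩ := mono_subseq_finset (ι := Unit ⊕ (Fin K ⊕ Fin P)) Finset.univ
    (Sum.elim (fun _ m => ε (φ m)) (Sum.elim (fun i m => b (φ m) (f m i))
      (fun j m => b' (φ m) (g m j))))
    (Sum.elim (fun _ => E) (fun _ => Γ'))
    (by
      rintro (i | i)
      · exact hE
      · exact hD)
    (by
      rintro (i | i | i) m
      · exact hεE _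
      · exact (hb _ _).1
      · exact (hb' _ _).1)
  have mε : Monotone ((fun m => ε (φ m)) ∘ h₀) := hm₀ (Sum.inl ()) (Finset.mem_univ _)
  have mb : ∀ i, Monotone ((fun m => b (φ m) (f m i)) ∘ h₀) := fun i =>
    hm₀ (Sum.inr (Sum.inl i)) (Finset.mem_univ _)
  have mb' : ∀ j, Monotone ((fun m => b' (φ m) (g m j)) ∘ h₀) := fun j =>
    hm₀ (Sum.inr (Sum.inr j)) (Finset.mem_univ _)
  obtain ⟨M, hM⟩ := sel_fin hD (s := fun i => (fun m => b (φ m) (f m i)) ∘ h₀)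
    (fun i m => (hb _ _).1) mb (fun i m => (hb _ _).2.2)
  obtain ⟨M', hM'⟩ := sel_fin hD (s := fun j => (fun m => b' (φ m) (g m j)) ∘ h₀)
    (fun i m => (hb' _ _).1) mb' (fun i m => (hb' _ _).2.2)
  refine ⟨fun a => h₀ (a + (M + M')), fun a c hac => hh₀ (by omega),
    fun a c hac => mε (by omega), fun a δ hδ => ?_⟩
  have hN : M + M' < θ (φ (h₀ (a + (M + M')))) + 1 := by
    have h1 : a + (M + M') ≤ h₀ (a + (M + M')) := hh₀.le_apply
    have h2 : h₀ (a + (M + M')) ≤ φ (h₀ (a + (M + M'))) := hφ.le_apply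
    have h3 : φ (h₀ (a + (M + M'))) ≤ θ (φ (h₀ (a + (M + M')))) := hθ.le_apply
    omega
  have ht : Tendsto (fun j : ℕ => j + (M + M')) atTop atTop := tendsto_add_atTop_nat (M + M')
  filter_upwards [ht.eventually (hM (θ (φ (h₀ (a + (M + M')))) + 1) (by omega)
    (a + (M + M')) δ hδ), ht.eventually (hM' (θ (φ (h₀ (a + (M + M')))) + 1) (by omega)
    (a + (M + M')) δ hδ)] with c hc1 hc2
  exact ⟨hc1, hc2⟩

end Pool.Agent.Helper98.Sph
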