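import Pool.Agent.Helper98.Sph.Statement
import Pool.Agent.Helper98.Germ.Val
import Pool.Agent.Helper31.Toric.Main

/-!
# Spherical varieties: working definitions
-/

open Finset Filter Topology

namespace Pool.Agent.Helper98.Sph

open Pool.Agent.Helper31.Toric (intVec coefGroup)
open Pool.Agent.Helper98.Germ (dot val)

/-- The exponent vectors of the sections with weights in `C` of the line bundle `∑ i, h' i D_i`. -/
noncomputable def expo {k n : ℕ} (v' : Fin k → Fin n → ℤ) (C : Finset (Fin n → ℤ))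
    (h' : Fin k → ℤ) : Finset (Fin k → ℕ) :=
  open Classical in C.image (fun w i => (pair w (v' i) + h' i).toNat)

/-- The log discrepancy in terms of exponent vectors. -/
noncomputable def total {k P : ℕ} (a : Fin k → ℕ) (b : Fin k → ℝ) (c : Fin P → ℝ)
    (E : Fin P → Finset (Fin k → ℕ)) (μ : Fin k → ℝ) : ℝ :=
  ∑ i, μ i * ((a i : ℝ) - b i) - ∑ t, c t * val (E t) μ

/-- A violating combination: linearly independent vectors, or a relation. -/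
def Viol {n r q p : ℕ} (ε : ℝ) (v : Fin r → Fin n → ℤ) (a : Fin r → ℕ) (γ : Fin q → Fin n → ℤ)
    (C : Fin p → Finset (Fin n → ℤ)) (h : Fin p → Fin r → ℤ) (b : Fin r → ℝ)
    (b' : Fin p → ℝ) : Prop :=
  ∃ (k : ℕ) (f : Fin k → Fin r) (l : Fin k → ℝ) (x : Fin n → ℤ), 0 < k ∧ k ≤ n + 1 ∧
    (∀ i, 0 < l i) ∧ (∀ j, (x j : ℝ) = ∑ i, l i * (v (f i) j : ℝ)) ∧
    (∀ t, pair (γ t) x ≤ 0) ∧
    ((LinearIndependent ℝ (fun i j => (v (f i) j : ℝ) : Fin k → Fin n → ℝ) ∧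
        total (fun i => a (f i)) (fun i => b (f i)) b'
          (fun t => expo (fun i => v (f i)) (C t) (fun i => h t (f i))) l < ε) ∨
      (x = 0 ∧ total (fun i => a (f i)) (fun i => b (f i)) b'
          (fun t => expo (fun i => v (f i)) (C t) (fun i => h t (f i))) l < 0))

/-- A hypothetical counterexample: pairs which are not `(ε, ℝ)`-complementary at the level
`B m, B' m`, but `(ε, ℝ)`-complementary at the levels `G a m, G' a m`, `a < m`. -/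
structure Fam (n : ℕ) where
  A : ℕ
  r : ℕ → ℕ
  q : ℕ → ℕ
  p : ℕ → ℕ
  v : ∀ m, Fin (r m) → Fin n → ℤ
  a : ∀ m, Fin (r m) → ℕ
  γ : ∀ m, Fin (q m) → Fin n → ℤ
  C : ∀ m, Fin (p m) → Finset (Fin n → ℤ)
  h : ∀ m, Fin (p m) → Fin (r m) → ℤ
  ε : ℕ → ℝ
  B : ∀ m, Fin (r m) → ℝ
  B' : ∀ m, Fin (p m) → ℝ
  G : ℕ → ∀ m, Fin (r m) → ℝ
  G' : ℕ → ∀ m, Fin (p m) → ℝ
  Z : ∀ m, Fin (p m) → Prop
  c₀ : ℝ
  data : ∀ m, IsData A (v m) (a m) (γ m) (C m) (h m)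
  hε : ∀ m, 0 ≤ ε m
  hB0 : ∀ m i, 0 ≤ B m i
  hB0' : ∀ m i, 0 ≤ B' m i
  hG0 : ∀ a m i, 0 ≤ G a m i
  hG0' : ∀ a m i, 0 ≤ G' a m i
  hc₀ : 0 < c₀
  hZB : ∀ m i, Z m i → B' m i = 0
  hZG : ∀ a m i, ¬ Z m i → c₀ ≤ G' a m i
  hnot : ∀ m, ¬ Complementary (ε m) (v m) (a m) (γ m) (C m) (h m) (B m) (B' m)
  hyes : ∀ b m, b < m → Complementary (ε m) (v m) (a m) (γ m) (C m) (h m) (G b m) (G' b m)
  hsel : ∀ (K P : ℕ) (φ : ℕ → ℕ), StrictMono φ → ∀ (f : ∀ m, Fin K → Fin (r (φ m)))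
    (g : ∀ m, Fin P → Fin (p (φ m))),
    ∃ h : ℕ → ℕ, StrictMono h ∧ (∀ a b, a ≤ b → ε (φ (h a)) ≤ ε (φ (h b))) ∧
      ∀ a, ∀ δ : ℝ, 0 < δ → ∀ᶠ b in atTop,
        (∀ i, B (φ (h a)) (f (h a) i) ≤ G (φ (h a)) (φ (h b)) (f (h b) i) + δ) ∧
        ∀ i, B' (φ (h a)) (g (h a) i) ≤ G' (φ (h a)) (φ (h b)) (g (h b) i) + δ

/-- A violation at the index `m` with `K` of the divisors `D_i`; `s` is `0` or `1`, and `g` is the
matrix of the pairings with the spherical roots. -/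
def PreRed {n : ℕ} (F : Fam n) (s : ℝ) (m K : ℕ) : Prop :=
  ∃ (f : Fin K → Fin (F.r m)) (g : Fin n → Fin K → ℤ) (l : Fin K → ℝ),
    (∀ i, 0 < l i) ∧
    (WithLp.toLp 2 l : EuclideanSpace ℝ (Fin K)) ∈ coefGroup (fun i => F.v m (f i)) ∧
    (∀ t i, g t i ≤ F.A) ∧
    (∀ μ ∈ coefGroup (fun i => F.v m (f i)), ∀ t, ∃ z : ℤ, ∑ i, μ i * (g t i : ℝ) = z) ∧
    (∀ t, ∑ i, l i * (g t i : ℝ) ≤ 0) ∧
    total (fun i => F.a m (f i)) (fun i => F.B m (f i)) (F.B' m)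
      (fun t => expo (fun i => F.v m (f i)) (F.C m t) (fun i => F.h m t (f i))) l < s * F.ε m ∧
    ∀ b, b < m → ∀ μ ∈ coefGroup (fun i => F.v m (f i)), (∀ i, 0 < μ i) →
      (∀ t, ∑ i, μ i * (g t i : ℝ) ≤ 0) →
        s * F.ε m ≤ total (fun i => F.a m (f i)) (fun i => F.G b m (f i)) (F.G' b m)
          (fun t => expo (fun i => F.v m (f i)) (F.C m t) (fun i => F.h m t (f i)))
          (fun i => μ i)

/-- A violation at the index `m` with `K` of the divisors `D_i` and `P` of the divisors `N_t`. -/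
def RedAt {n : ℕ} (F : Fam n) (s : ℝ) (m K P : ℕ) : Prop :=
  ∃ (f : Fin K → Fin (F.r m)) (k : Fin P → Fin (F.p m)) (g : Fin n → Fin K → ℤ) (l : Fin K → ℝ),
    (∀ i, 0 < l i) ∧
    (WithLp.toLp 2 l : EuclideanSpace ℝ (Fin K)) ∈ coefGroup (fun i => F.v m (f i)) ∧
    (∀ t i, g t i ≤ F.A) ∧
    (∀ μ ∈ coefGroup (fun i => F.v m (f i)), ∀ t, ∃ z : ℤ, ∑ i, μ i * (g t i : ℝ) = z) ∧
    (∀ t, ∑ i, l i * (g t i : ℝ) ≤ 0) ∧
    total (fun i => F.a m (f i)) (fun i => F.B m (f i)) (fun t => F.B' m (k t))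
      (fun t => expo (fun i => F.v m (f i)) (F.C m (k t)) (fun i => F.h m (k t) (f i))) l <
        s * F.ε m ∧
    ∀ b, b < m → ∀ μ ∈ coefGroup (fun i => F.v m (f i)), (∀ i, 0 < μ i) →
      (∀ t, ∑ i, μ i * (g t i : ℝ) ≤ 0) →
        s * F.ε m ≤ total (fun i => F.a m (f i)) (fun i => F.G b m (f i))
          (fun t => F.G' b m (k t))
          (fun t => expo (fun i => F.v m (f i)) (F.C m (k t)) (fun i => F.h m (k t) (f i)))
          (fun i => μ i)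

end Pool.Agent.Helper98.Sph
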