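import Pool.Agent.Helper31.Toric.Finite

/-!
# Linear programming without a sign condition on the costs

`exists_basic_of`, `exists_finite_of`: translate by `u₀` and use `exists_basic`, `exists_cheap`,
`exists_finite` (Pool/Agent/Helper31/Toric). `exists_circuit`: homogenise.
-/

open Finset

namespace Pool.Agent.Helper98.Sph

open Pool.Agent.Helper31.Toric (exists_basic exists_cheap exists_finite)

private theorem enum {r n : ℕ} (w : Fin r → Fin n → ℝ) (S : Finset (Fin r)) (a : Fin r → ℝ)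
    (haS : ∀ i ∈ S, 0 < a i) (haS' : ∀ i, i ∉ S → a i = 0)
    (hli : LinearIndependent ℝ (fun i : S => w i)) :
    ∃ (k : ℕ) (f : Fin k → Fin r), k ≤ n ∧ (∀ i, 0 < a (f i)) ∧
      LinearIndependent ℝ (fun i => w (f i)) ∧
      ∀ g : Fin r → ℝ, ∑ i, a i * g i = ∑ i, a (f i) * g (f i) := by
  classical
  let φ := S.equivFin.symm
  have hli' : LinearIndependent ℝ (fun i => w (φ i) : Fin S.card → Fin n → ℝ) := by
    have := hli.comp φ φ.injective
    exact this
  refine ⟨S.card, fun i => φ i, ?_, fun i => haS _ (φ i).2, hli', fun g => ?_⟩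
  · have := hli'.fintype_card_le_finrank
    simpa using this
  · rw [← Finset.sum_subset (Finset.subset_univ S)
      (fun i _ hi => by rw [haS' i hi, zero_mul]), ← Finset.sum_coe_sort S]
    exact (Equiv.sum_comp φ (fun i : S => a i * g i)).symm

theorem exists_circuit {r n : ℕ} (w : Fin r → Fin n → ℝ) (c : Fin r → ℝ)
    (h : ¬ ∃ u : Fin n → ℝ, ∀ i, ∑ j, w i j * u j ≤ c i) :
    ∃ (k : ℕ) (f : Fin k → Fin r) (l : Fin k → ℝ), 0 < k ∧ k ≤ n + 1 ∧ (∀ i, 0 < l i) ∧
      (∀ j, ∑ i, l i * w (f i) j = 0) ∧ ∑ i, l i * c (f i) < 0 := by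
  classical
  obtain ⟨N, hN⟩ : ∃ N : ℝ, ∀ i, 0 ≤ c i + N := by
    refine ⟨∑ i, |c i|, fun i => ?_⟩
    have h1 : |c i| ≤ ∑ i, |c i| :=
      Finset.single_le_sum (f := fun i => |c i|) (fun j _ => abs_nonneg _) (Finset.mem_univ i)
    have h2 := neg_abs_le (c i)
    linarith
  set w' : Fin r → Fin (n + 1) → ℝ := fun i => Fin.cons 1 (w i) with hw'
  set x' : Fin (n + 1) → ℝ := Fin.cons 1 (fun _ => 0) with hx'
  have hcheap := exists_cheap w' (fun i => c i + N) hN x' N (by
    rintro ⟨u, hu1, hu2⟩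
    apply h
    refine ⟨fun j => u j.succ, fun i => ?_⟩
    have h1 := hu1 i
    simp only [hw', hx', Fin.sum_univ_succ, Fin.cons_zero, Fin.cons_succ, one_mul, zero_mul,
      Finset.sum_const_zero, add_zero] at h1 hu2
    linarith)
  obtain ⟨S, a, haS, haS', hax, hac, hli⟩ := exists_basic w' (fun i => c i + N) hN x' N hcheap
  obtain ⟨k, f, hk, hf, -, hsum⟩ := enum w' S a haS haS' hli
  have h0 : ∑ i, a (f i) = 1 := by
    have h1 := hax 0
    simp only [hw', hx', Fin.cons_zero] at h1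
    rw [hsum (fun _ => 1)] at h1
    simp only [mul_one] at h1
    exact h1.symm
  refine ⟨k, f, fun i => a (f i), ?_, hk, hf, fun j => ?_, ?_⟩
  · rcases Nat.eq_zero_or_pos k with h1 | h1
    · subst h1
      simp at h0
    · exact h1
  · have h1 := hax j.succ
    simp only [hw', hx', Fin.cons_succ] at h1
    rw [hsum (fun i => w i j)] at h1
    exact h1.symm
  · rw [hsum (fun i => c i + N)] at hac
    simp only [mul_add, Finset.sum_add_distrib, ← Finset.sum_mul, h0, one_mul] at hac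
    linarith

theorem exists_basic_of {r n : ℕ} (w : Fin r → Fin n → ℝ) (c : Fin r → ℝ) (u₀ : Fin n → ℝ)
    (hu₀ : ∀ i, ∑ j, w i j * u₀ j ≤ c i) (x : Fin n → ℝ) (hx : x ≠ 0) (δ : ℝ)
    (h : ¬ ∃ u : Fin n → ℝ, (∀ i, ∑ j, w i j * u j ≤ c i) ∧ δ ≤ ∑ j, x j * u j) :
    ∃ (k : ℕ) (f : Fin k → Fin r) (l : Fin k → ℝ), 0 < k ∧ k ≤ n ∧ (∀ i, 0 < l i) ∧
      (∀ j, x j = ∑ i, l i * w (f i) j) ∧ LinearIndependent ℝ (fun i => w (f i)) ∧
      ∑ i, l i * c (f i) < δ := by
  classical
  set c' : Fin r → ℝ := fun i => c i - ∑ j, w i j * u₀ j with hc'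
  have hc0 : ∀ i, 0 ≤ c' i := fun i => by
    have := hu₀ i
    simp only [hc']
    linarith
  have hcheap := exists_cheap w c' hc0 x (δ - ∑ j, x j * u₀ j) (by
    rintro ⟨u, hu1, hu2⟩
    apply h
    refine ⟨fun j => u j + u₀ j, fun i => ?_, ?_⟩
    · have h1 := hu1 i
      simp only [hc'] at h1
      simp only [mul_add, Finset.sum_add_distrib]
      linarith
    · simp only [mul_add, Finset.sum_add_distrib]
      linarith)
  obtain ⟨S, a, haS, haS', hax, hac, hli⟩ := exists_basic w c' hc0 x _ hcheap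
  obtain ⟨k, f, hk, hf, hli', hsum⟩ := enum w S a haS haS' hli
  have hx' : ∀ j, x j = ∑ i, a (f i) * w (f i) j := fun j => by
    rw [hax j, hsum (fun i => w i j)]
  refine ⟨k, f, fun i => a (f i), ?_, hk, hf, hx', hli', ?_⟩
  · rcases Nat.eq_zero_or_pos k with h1 | h1
    · subst h1
      exfalso
      apply hx
      funext j
      rw [hx' j]
      simp
    · exact h1
  · rw [hsum c'] at hac
    have h1 : ∑ j, x j * u₀ j = ∑ i, a (f i) * ∑ j, w (f i) j * u₀ j := by
      simp only [Finset.mul_sum]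
      rw [Finset.sum_comm]
      refine Finset.sum_congr rfl fun j _ => ?_
      rw [hx' j, Finset.sum_mul]
      exact Finset.sum_congr rfl fun i _ => by ring
    simp only [hc', mul_sub, Finset.sum_sub_distrib] at hac
    linarith

theorem exists_finite_of {r n : ℕ} (w : Fin r → Fin n → ℝ) (c : Fin r → ℝ) (u₀ : Fin n → ℝ)
    (hu₀ : ∀ i, ∑ j, w i j * u₀ j ≤ c i) :
    ∃ U : Finset (Fin n → ℝ), U.Nonempty ∧ (∀ u ∈ U, ∀ i, ∑ j, w i j * u j ≤ c i) ∧
      ∀ x : Fin n → ℝ, (∃ a : Fin r → ℝ, (∀ i, 0 ≤ a i) ∧ ∀ j, x j = ∑ i, a i * w i j) →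
        ∀ u : Fin n → ℝ, (∀ i, ∑ j, w i j * u j ≤ c i) →
          ∃ u' ∈ U, ∑ j, x j * u j ≤ ∑ j, x j * u' j := by
  classical
  set c' : Fin r → ℝ := fun i => c i - ∑ j, w i j * u₀ j with hc'
  have hc0 : ∀ i, 0 ≤ c' i := fun i => by
    have := hu₀ i
    simp only [hc']
    linarith
  obtain ⟨U, hU1, hU2⟩ := exists_finite w c' hc0
  refine ⟨insert u₀ (U.image fun u j => u j + u₀ j), Finset.insert_nonempty _ _, ?_, ?_⟩
  · intro u hu i
    rcases Finset.mem_insert.1 hu with h1 | h1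
    · rw [h1]
      exact hu₀ i
    · obtain ⟨u', hu', rfl⟩ := Finset.mem_image.1 h1
      have h2 := hU1 u' hu' i
      simp only [hc'] at h2
      simp only [mul_add, Finset.sum_add_distrib]
      linarith
  · intro x hx u hu
    obtain ⟨u', hu', h1⟩ := hU2 x hx (fun j => u j - u₀ j) (fun i => by
      have h2 := hu i
      simp only [hc', mul_sub, Finset.sum_sub_distrib]
      linarith)
    refine ⟨_, Finset.mem_insert_of_mem (Finset.mem_image_of_mem _ hu'), ?_⟩
    simp only [mul_sub, mul_add, Finset.sum_sub_distrib, Finset.sum_add_distrib] at h1 ⊢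
    linarith

end Pool.Agent.Helper98.Sph
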