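import Pool.Agent.Helper98.Sph.Defs
import Pool.Agent.Helper98.Sph.LP

/-!
# Linear duality for complements on spherical varieties

Plan. `total_eq`: for `C t` non-empty and `0 ≤ pair w (v (f i)) + h t (f i)` (`w ∈ C t`),
`val (expo ..) l = mn (C t) x + ∑ i, l i * h t (f i)`, since the value of the exponent vector of `w`
at `l` is `pair w x + ∑ i, l i * h t (f i)` (see `val_expo` in Pool/Agent/Helper98/Germ/Val.lean for
a similar proof).

`Complementary.le_total`: for `x ≠ 0` take the `u ∈ U` with `ε ≤ ev u x - ...` (the vector `x` is in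
the cone: coefficients `∑ i ∈ univ.filter (f · = i'), l i`), for `x = 0` any `u ∈ U`; then
`ev u x = ∑ i, l i * ev u (v (f i)) ≤ ∑ i, l i * (a (f i) - b (f i) - ∑ t, b' t * h t (f i))`; use
`total_eq` (`mn (C t) 0 = 0`). As `Complementary.le_sum` in Pool/Agent/Helper31/Toric/Defs.lean.

`exists_violation`: let `b' k ≤ 1 - ε` for all `k` and `c i = a i - b i - ∑ t, b' t * h t i`. If
there is no `u` with `∑ j, v i j * u j ≤ c i` for all `i`, use `exists_circuit` and `total_eq` with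
`x = 0` (second case of `Viol`; `pair (γ t) 0 = 0`). Otherwise let `U` be the set of
`exists_finite_of`. As there is no complement, there is `x ≠ 0` in the cone, `pair (γ t) x ≤ 0` for
all `t`, with `ev u x - ∑ k, b' k * mn (C k) x < ε` for all `u ∈ U`, hence for all `u` in the
polyhedron. Use `exists_basic_of` with `δ = ε + ∑ k, b' k * mn (C k) x` and `total_eq` (first case
of `Viol`).
-/

open Finset

namespace Pool.Agent.Helper98.Sph

open Pool.Agent.Helper98.Germ (dot val val_le exists_val_eq)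

private theorem mn_le' {d : ℕ} {A : Finset (Fin d → ℤ)} {w : Fin d → ℤ} (hw : w ∈ A)
    (y : Fin d → ℤ) : mn A y ≤ pair w y := by
  unfold mn
  rw [dif_pos ⟨w, hw⟩]
  exact Finset.inf'_le (f := fun w => pair w y) hw

private theorem exists_mn_eq' {d : ℕ} {A : Finset (Fin d → ℤ)} (hA : A.Nonempty)
    (y : Fin d → ℤ) : ∃ w ∈ A, pair w y = mn A y := by
  obtain ⟨w, hw, h⟩ := Finset.exists_mem_eq_inf' hA (fun w => pair w y)
  refine ⟨w, hw, ?_⟩
  unfold mn
  rw [dif_pos hA, h]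

private theorem pair_zero' {d : ℕ} (w : Fin d → ℤ) : pair w 0 = 0 := by
  unfold pair
  exact Finset.sum_eq_zero fun j _ => by rw [Pi.zero_apply, mul_zero]

private theorem mn_zero' {d : ℕ} (A : Finset (Fin d → ℤ)) : mn A 0 = 0 := by
  by_cases hA : A.Nonempty
  · obtain ⟨w, _, h⟩ := exists_mn_eq' hA 0
    rw [← h, pair_zero']
  · unfold mn
    rw [dif_neg hA]

private theorem dot_expo' {k d : ℕ} (v' : Fin k → Fin d → ℤ) (w : Fin d → ℤ)
    (h' : Fin k → ℤ) (hn : ∀ i, 0 ≤ pair w (v' i) + h' i) (μ : Fin k → ℝ) (y : Fin d → ℤ)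
    (hy : ∀ j, (y j : ℝ) = ∑ i, μ i * (v' i j : ℝ)) :
    dot (fun i => (pair w (v' i) + h' i).toNat) μ =
      (pair w y : ℝ) + ∑ i, μ i * (h' i : ℝ) := by
  have h1 : ∀ i, (((pair w (v' i) + h' i).toNat : ℕ) : ℝ) =
      (pair w (v' i) : ℝ) + (h' i : ℝ) := by
    intro i
    have h3 := Int.toNat_of_nonneg (hn i)
    have h4 : (((pair w (v' i) + h' i).toNat : ℤ) : ℝ) =
        ((pair w (v' i) + h' i : ℤ) : ℝ) := by rw [h3]
    push_cast at h4
    exact h4
  have h2 : (pair w y : ℝ) = ∑ i, μ i * (pair w (v' i) : ℝ) := by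
    unfold pair
    push_cast
    simp only [hy, Finset.mul_sum]
    rw [Finset.sum_comm]
    refine Finset.sum_congr rfl fun i _ => Finset.sum_congr rfl fun j _ => ?_
    ring
  unfold dot
  simp only [h1]
  rw [h2, ← Finset.sum_add_distrib]
  refine Finset.sum_congr rfl fun i _ => ?_
  ring

private theorem mem_expo' {k d : ℕ} {v' : Fin k → Fin d → ℤ} {A : Finset (Fin d → ℤ)}
    {h' : Fin k → ℤ} {α : Fin k → ℕ} : α ∈ expo v' A h' ↔
      ∃ w ∈ A, (fun i => (pair w (v' i) + h' i).toNat) = α := by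
  unfold expo
  rw [Finset.mem_image]

private theorem val_expo' {k d : ℕ} (v' : Fin k → Fin d → ℤ) {A : Finset (Fin d → ℤ)}
    (hA : A.Nonempty) (h' : Fin k → ℤ) (hn : ∀ i, ∀ w ∈ A, 0 ≤ pair w (v' i) + h' i)
    (μ : Fin k → ℝ) (y : Fin d → ℤ)
    (hy : ∀ j, (y j : ℝ) = ∑ i, μ i * (v' i j : ℝ)) :
    val (expo v' A h') μ = (mn A y : ℝ) + ∑ i, μ i * (h' i : ℝ) := by
  apply le_antisymm
  · obtain ⟨w, hw, h⟩ := exists_mn_eq' hA y
    have h1 := val_le (mem_expo'.mpr ⟨w, hw, rfl⟩ : _ ∈ expo v' A h') μ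
    rw [dot_expo' v' w h' (fun i => hn i w hw) μ y hy, h] at h1
    exact h1
  · have hne : (expo v' A h').Nonempty := by
      obtain ⟨w, hw⟩ := hA
      exact ⟨_, mem_expo'.mpr ⟨w, hw, rfl⟩⟩
    obtain ⟨α, hα, h⟩ := exists_val_eq hne μ
    obtain ⟨w, hw, rfl⟩ := mem_expo'.mp hα
    rw [← h, dot_expo' v' w h' (fun i => hn i w hw) μ y hy]
    have h2 : (mn A y : ℝ) ≤ (pair w y : ℝ) := by exact_mod_cast mn_le' hw y
    linarith

private theorem ev_comb {n r k : ℕ} (v : Fin r → Fin n → ℤ) (f : Fin k → Fin r)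
    (l : Fin k → ℝ) (x : Fin n → ℤ) (hx : ∀ j, (x j : ℝ) = ∑ i, l i * (v (f i) j : ℝ))
    (u : Fin n → ℝ) : ev u x = ∑ i, l i * ev u (v (f i)) := by
  simp only [ev, Finset.mul_sum]
  rw [Finset.sum_comm]
  refine Finset.sum_congr rfl fun j _ => ?_
  rw [hx j, Finset.mul_sum]
  exact Finset.sum_congr rfl fun i _ => by ring

theorem total_eq {n r q p k A : ℕ} {v : Fin r → Fin n → ℤ} {a : Fin r → ℕ}
    {γ : Fin q → Fin n → ℤ} {C : Fin p → Finset (Fin n → ℤ)} {h : Fin p → Fin r → ℤ}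
    (hd : IsData A v a γ C h) (b : Fin r → ℝ) (b' : Fin p → ℝ) (f : Fin k → Fin r)
    (l : Fin k → ℝ) (x : Fin n → ℤ) (hx : ∀ j, (x j : ℝ) = ∑ i, l i * (v (f i) j : ℝ)) :
    total (fun i => a (f i)) (fun i => b (f i)) b'
        (fun t => expo (fun i => v (f i)) (C t) (fun i => h t (f i))) l =
      ∑ i, l i * ((a (f i) : ℝ) - b (f i) - ∑ t, b' t * (h t (f i) : ℝ)) -
        ∑ t, b' t * (mn (C t) x : ℝ) := by
  obtain ⟨_, _, _, hne, hpos⟩ := hd
  have h1 : ∀ t, val (expo (fun i => v (f i)) (C t) (fun i => h t (f i))) l =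
      (mn (C t) x : ℝ) + ∑ i, l i * (h t (f i) : ℝ) := fun t =>
    val_expo' (fun i => v (f i)) (hne t) (fun i => h t (f i)) (fun i w hw => hpos t (f i) w hw)
      l x hx
  unfold total
  simp only [h1, mul_add, Finset.sum_add_distrib]
  have h2 : ∑ t, b' t * ∑ i, l i * (h t (f i) : ℝ) =
      ∑ i, l i * ∑ t, b' t * (h t (f i) : ℝ) := by
    simp only [Finset.mul_sum]
    rw [Finset.sum_comm]
    exact Finset.sum_congr rfl fun i _ => Finset.sum_congr rfl fun t _ => by ring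
  have h3 : ∑ i, l i * ((a (f i) : ℝ) - b (f i) - ∑ t, b' t * (h t (f i) : ℝ)) =
      ∑ i, l i * ((a (f i) : ℝ) - b (f i)) - ∑ i, l i * ∑ t, b' t * (h t (f i) : ℝ) := by
    rw [← Finset.sum_sub_distrib]
    exact Finset.sum_congr rfl fun i _ => by ring
  rw [h2, h3]
  ring

theorem Complementary.le_total {n r q p k A : ℕ} {ε : ℝ} {v : Fin r → Fin n → ℤ}
    {a : Fin r → ℕ} {γ : Fin q → Fin n → ℤ} {C : Fin p → Finset (Fin n → ℤ)}
    {h : Fin p → Fin r → ℤ} {b : Fin r → ℝ} {b' : Fin p → ℝ} (hd : IsData A v a γ C h)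
    (hc : Complementary ε v a γ C h b b') (f : Fin k → Fin r) (l : Fin k → ℝ)
    (hl : ∀ i, 0 ≤ l i) (x : Fin n → ℤ) (hx : ∀ j, (x j : ℝ) = ∑ i, l i * (v (f i) j : ℝ))
    (hγ : ∀ t, pair (γ t) x ≤ 0) :
    (x ≠ 0 → ε ≤ total (fun i => a (f i)) (fun i => b (f i)) b'
        (fun t => expo (fun i => v (f i)) (C t) (fun i => h t (f i))) l) ∧
      (x = 0 → 0 ≤ total (fun i => a (f i)) (fun i => b (f i)) b'
        (fun t => expo (fun i => v (f i)) (C t) (fun i => h t (f i))) l) := by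
  classical
  obtain ⟨_, U, hUne, hU1, hU2⟩ := hc
  rw [total_eq hd b b' f l x hx]
  have hle : ∀ u ∈ U, ev u x ≤
      ∑ i, l i * ((a (f i) : ℝ) - b (f i) - ∑ t, b' t * (h t (f i) : ℝ)) := by
    intro u hu
    rw [ev_comb v f l x hx u]
    exact Finset.sum_le_sum fun i _ => mul_le_mul_of_nonneg_left (hU1 u hu (f i)) (hl i)
  refine ⟨fun hx0 => ?_, fun hx0 => ?_⟩
  · obtain ⟨u, huU, hu2⟩ := hU2 x hx0 hγ
      ⟨fun i => ∑ i' ∈ univ.filter (fun i' => f i' = i), l i',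
        fun i => Finset.sum_nonneg fun i' _ => hl i', fun j => by
          rw [hx j, ← Finset.sum_fiberwise univ f (fun i => l i * (v (f i) j : ℝ))]
          refine Finset.sum_congr rfl fun i _ => ?_
          rw [Finset.sum_mul]
          refine Finset.sum_congr rfl fun i' hi' => ?_
          rw [(Finset.mem_filter.mp hi').2]⟩
    have := hle u huU
    linarith
  · obtain ⟨u, huU⟩ := hUne
    have h1 := hle u huU
    have h2 : ev u x = 0 := by
      rw [hx0]
      unfold ev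
      exact Finset.sum_eq_zero fun j _ => by rw [Pi.zero_apply, Int.cast_zero, mul_zero]
    have h3 : ∑ t, b' t * (mn (C t) x : ℝ) = 0 := by
      rw [hx0]
      exact Finset.sum_eq_zero fun t _ => by rw [mn_zero', Int.cast_zero, mul_zero]
    linarith

theorem exists_violation {n r q p A : ℕ} {ε : ℝ} {v : Fin r → Fin n → ℤ}
    {a : Fin r → ℕ} {γ : Fin q → Fin n → ℤ} {C : Fin p → Finset (Fin n → ℤ)}
    {h : Fin p → Fin r → ℤ} {b : Fin r → ℝ} {b' : Fin p → ℝ} (hd : IsData A v a γ C h)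
    (hn : ¬ Complementary ε v a γ C h b b') :
    (∃ k, 1 - ε < b' k) ∨ Viol ε v a γ C h b b' := by
  by_cases hk : ∃ k, 1 - ε < b' k
  · exact Or.inl hk
  right
  have hk' : ∀ k, b' k ≤ 1 - ε := by
    intro k
    by_contra hc
    exact hk ⟨k, not_le.mp hc⟩
  have hev : ∀ (u : Fin n → ℝ) (z : Fin n → ℤ), ev u z = ∑ j, (z j : ℝ) * u j := fun u z =>
    Finset.sum_congr rfl fun j _ => mul_comm (u j) _
  by_cases hu : ∃ u : Fin n → ℝ, ∀ i, ∑ j, (v i j : ℝ) * u j ≤
      (a i : ℝ) - b i - ∑ t, b' t * (h t i : ℝ)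
  · obtain ⟨u₀, hu₀⟩ := hu
    obtain ⟨U, hUne, hU1, hU2⟩ := exists_finite_of (fun i j => (v i j : ℝ))
      (fun i => (a i : ℝ) - b i - ∑ t, b' t * (h t i : ℝ)) u₀ hu₀
    have hx : ∃ x : Fin n → ℤ, x ≠ 0 ∧ (∀ t, pair (γ t) x ≤ 0) ∧ InCone v x ∧
        ∀ u ∈ U, ev u x - ∑ k, b' k * (mn (C k) x : ℝ) < ε := by
      by_contra hc
      apply hn
      refine ⟨hk', U, hUne, ?_, ?_⟩
      · intro u hu i
        rw [hev]
        exact hU1 u hu i
      · intro x hx0 hγ hcone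
        by_contra hcc
        apply hc
        refine ⟨x, hx0, hγ, hcone, ?_⟩
        intro u huU
        by_contra hccc
        exact hcc ⟨u, huU, not_lt.mp hccc⟩
    obtain ⟨x, hx0, hγ, hcone, hxU⟩ := hx
    have hx0' : (fun j => (x j : ℝ)) ≠ 0 := by
      intro h0
      apply hx0
      funext j
      have := congrFun h0 j
      simpa using this
    obtain ⟨k, f, l, hk0, hkn, hl, hxl, hli, hlt⟩ := exists_basic_of (fun i j => (v i j : ℝ))
      (fun i => (a i : ℝ) - b i - ∑ t, b' t * (h t i : ℝ)) u₀ hu₀ (fun j => (x j : ℝ)) hx0'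
      (ε + ∑ k, b' k * (mn (C k) x : ℝ)) (by
        rintro ⟨u, hu1, hu2⟩
        obtain ⟨u', hu'U, hu'⟩ := hU2 (fun j => (x j : ℝ)) hcone u hu1
        have h1 := hxU u' hu'U
        rw [hev] at h1
        have h2 := hu2.trans hu'
        linarith)
    refine ⟨k, f, l, x, hk0, hkn.trans (Nat.le_succ n), hl, hxl, hγ, Or.inl ⟨hli, ?_⟩⟩
    rw [total_eq hd b b' f l x hxl]
    have h1 : ∑ i, l i * ((a (f i) : ℝ) - b (f i) - ∑ t, b' t * (h t (f i) : ℝ)) <
        ε + ∑ k, b' k * (mn (C k) x : ℝ) := hlt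
    linarith
  · obtain ⟨k, f, l, hk0, hkn, hl, hxl, hlt⟩ := exists_circuit (fun i j => (v i j : ℝ))
      (fun i => (a i : ℝ) - b i - ∑ t, b' t * (h t i : ℝ)) hu
    have hx : ∀ j, (((0 : Fin n → ℤ) j : ℤ) : ℝ) = ∑ i, l i * (v (f i) j : ℝ) := by
      intro j
      rw [Pi.zero_apply, Int.cast_zero]
      exact (hxl j).symm
    refine ⟨k, f, l, 0, hk0, hkn, hl, hx, fun t => (pair_zero' (γ t)).le, Or.inr ⟨rfl, ?_⟩⟩
    rw [total_eq hd b b' f l 0 hx]
    have h3 : ∑ t, b' t * (mn (C t) 0 : ℝ) = 0 :=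
      Finset.sum_eq_zero fun t _ => by rw [mn_zero', Int.cast_zero, mul_zero]
    rw [h3, sub_zero]
    exact hlt

end Pool.Agent.Helper98.Sph
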