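import Pool.Agent.Helper98.Sph.Types
import Pool.Agent.Helper98.Sph.Core

/-!
# There is no counterexample family
-/

open Finset Filter Topology

namespace Pool.Agent.Helper98.Sph

open Pool.Agent.Helper31.Toric (intVec coefGroup)
open Pool.Agent.Helper98.Germ (dot val)

theorem Fam.case1 {n : ℕ} (F : Fam n) (φ : ℕ → ℕ) (hφ : StrictMono φ)
    (h : ∀ m, Viol (F.ε (φ m)) (F.v (φ m)) (F.a (φ m)) (F.γ (φ m)) (F.C (φ m)) (F.h (φ m))
      (F.B (φ m)) (F.B' (φ m))) : False := by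
  classical
  have hfreq : ∃ (s : ℝ) (K : ℕ), 0 ≤ s ∧ ∃ᶠ m in atTop, PreRed F s (φ m) K := by
    by_contra hcon
    have h1 : ∀ (s : ℝ) (K : ℕ), 0 ≤ s → ∀ᶠ m in atTop, ¬ PreRed F s (φ m) K := by
      intro s K hs
      by_contra h2
      exact hcon ⟨s, K, hs, h2⟩
    have h3 : ∀ᶠ m in atTop, ∀ K ∈ Finset.range (n + 2),
        ¬ PreRed F 0 (φ m) K ∧ ¬ PreRed F 1 (φ m) K := by
      rw [Filter.eventually_all_finset]
      intro K _
      exact (h1 0 K le_rfl).and (h1 1 K zero_le_one)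
    obtain ⟨m, hm⟩ := h3.exists
    obtain ⟨K, hK, hR⟩ := F.preRed (h m)
    have h4 := hm K (Finset.mem_range.2 (by omega))
    rcases hR with hR | hR
    · exact h4.1 hR
    · exact h4.2 hR
  obtain ⟨s, K, hs, hfr⟩ := hfreq
  obtain ⟨ψ₀, hψ₀, hR₀⟩ := Filter.extraction_of_frequently_atTop hfr
  obtain ⟨ψ, P, hψ, hR⟩ := F.exists_redAt s hs K (fun m => φ (ψ₀ m)) (hφ.comp hψ₀) hR₀
  choose f k g l h1 h2 h3 h4 h5 h6 h7 using hR
  refine core (k := K) (P := P) (q := n) (A := F.A) (fun m => s * F.ε (ψ m))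
    (fun m i => F.a (ψ m) (f m i)) g (fun m i => F.B (ψ m) (f m i))
    (fun a m i => F.G (ψ a) (ψ m) (f m i)) (fun m t => F.B' (ψ m) (k m t))
    (fun a m t => F.G' (ψ a) (ψ m) (k m t))
    (fun m t => expo (fun i => F.v (ψ m) (f m i)) (F.C (ψ m) (k m t))
      (fun i => F.h (ψ m) (k m t) (f m i)))
    (fun m => coefGroup (fun i => F.v (ψ m) (f m i)))
    (fun m i => (F.data (ψ m)).2.1 (f m i)) h3 h4 ?_ (fun m => mul_nonneg hs (F.hε (ψ m)))
    (fun a m i => F.hG0 (ψ a) (ψ m) (f m i)) (fun m t => F.hB0' (ψ m) (k m t))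
    (fun a m t => F.hG0' (ψ a) (ψ m) (k m t)) ?_ l h1 h2 h5 h6 ?_ ?_
  · intro m t
    exact ((F.data (ψ m)).2.2.2.1 (k m t)).image _
  · intro m z
    refine ⟨fun j => ∑ i, z i * F.v (ψ m) (f m i) j, fun j => ?_⟩
    push_cast
    rfl
  · intro a j haj μ hμ hpos hle
    exact h7 j (ψ a) (hψ haj) μ hμ hpos hle
  · intro φ' hφ'
    obtain ⟨h', hh', hmono, hev⟩ := F.hsel K P (fun m => ψ (φ' m)) (hψ.comp hφ')
      (fun m => f (φ' m)) (fun m => k (φ' m))
    exact ⟨h', hh', fun a b hab => mul_le_mul_of_nonneg_left (hmono a b hab) hs, hev⟩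

theorem Fam.case2 {n : ℕ} (F : Fam n) (φ : ℕ → ℕ) (hφ : StrictMono φ)
    (h : ∀ m, ∃ j, 1 - F.ε (φ m) < F.B' (φ m) j) : False := by
  choose j hj using h
  obtain ⟨s, hs, hmono, hev⟩ := F.hsel 0 1 φ hφ (fun _ i => i.elim0) (fun m _ => j m)
  have hδ : 0 < (F.B' (φ (s 0)) (j (s 0)) - (1 - F.ε (φ (s 0)))) / 2 := by
    have := hj (s 0)
    linarith
  obtain ⟨b, hb, hb0⟩ := ((hev 0 _ hδ).and (eventually_gt_atTop 0)).exists
  have h1 := hb.2 0
  have h2 := (F.hyes (φ (s 0)) (φ (s b)) (hφ (hs hb0))).1 (j (s b))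
  have h3 := hmono 0 b (Nat.zero_le b)
  linarith

theorem Fam.false {n : ℕ} (F : Fam n) : False := by
  have hv := fun m => exists_violation (F.data m) (F.hnot m)
  have key : ∀ P : ℕ → Prop, (∀ φ : ℕ → ℕ, StrictMono φ → (∀ m, P (φ m)) → False) →
      ∀ᶠ m in atTop, ¬ P m := by
    intro P hP
    by_contra hcon
    rw [not_eventually] at hcon
    simp only [not_not] at hcon
    obtain ⟨φ, hφ, hφP⟩ := Filter.extraction_of_frequently_atTop hcon
    exact hP φ hφ hφP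
  have h1 := key (fun m => Viol (F.ε m) (F.v m) (F.a m) (F.γ m) (F.C m) (F.h m) (F.B m) (F.B' m))
    F.case1
  have h2 := key (fun m => ∃ j, 1 - F.ε m < F.B' m j) F.case2
  obtain ⟨m, ha, hb⟩ := (h1.and h2).exists
  rcases hv m with h | h
  · exact hb h
  · exact ha h

end Pool.Agent.Helper98.Sph
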