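import Mathlib

/-!
# Complementary thresholds on spherical varieties: the definitions

Let `G` be a connected reductive group and `X` a spherical `G`-variety, projective over an affine
`G`-variety `Z`, and let `ℤ ^ n` be the dual of the weight lattice of `X`. The prime divisors
`D i`, `i : Fin r`, of `X` which are stable under a Borel subgroup (the `G`-invariant ones and the
colours) give vectors `v i` in `ℤ ^ n`, and `-K_X = ∑ i, a i D_i` with `a i = 1` if `D_i` is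
`G`-invariant, and `a i ≥ 1` for the colours. The `G`-invariant valuations are the `x` with
`⟨γ t, x⟩ ≤ 0` for all `t`, where the `γ t`, `t : Fin q`, are the spherical roots (linearly
independent, so `q ≤ n`). The toric varieties are the case `q = 0` without colours.

For `k : Fin p`, let `N_k` be a general member of the linear system spanned by the
`G`-translates of the sections of `∑ i, h k i D_i` with the weights `w ∈ C k`.
The boundary is `∑ i, b i D_i + ∑ k, b' k N_k`, where `b i = 0` for the colours.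
-/

open scoped ENNReal

namespace Pool.Agent.Helper98.Sph

/-- The value of the real covector `u` on the lattice vector `x`. -/
noncomputable def ev {n : ℕ} (u : Fin n → ℝ) (x : Fin n → ℤ) : ℝ := ∑ j, u j * (x j : ℝ)

/-- The pairing of a weight with a lattice vector. -/
def pair {n : ℕ} (w x : Fin n → ℤ) : ℤ := ∑ j, w j * x j

/-- The smallest value of the weights in `C` at the lattice vector `x`. -/
noncomputable def mn {n : ℕ} (C : Finset (Fin n → ℤ)) (x : Fin n → ℤ) : ℤ :=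
  if h : C.Nonempty then C.inf' h (fun w => pair w x) else 0

/-- The lattice vector `x` lies in the convex cone spanned by the `v i`. -/
def InCone {n r : ℕ} (v : Fin r → Fin n → ℤ) (x : Fin n → ℤ) : Prop :=
  ∃ l : Fin r → ℝ, (∀ i, 0 ≤ l i) ∧ ∀ k, (x k : ℝ) = ∑ i, l i * (v i k : ℝ)

/-- The numerical data of a spherical variety with divisors `N_k`; `A` is a bound for the
coefficients `a i` of `-K` and for the pairings of the spherical roots with the `v i`. -/
def IsData {n r q p : ℕ} (A : ℕ) (v : Fin r → Fin n → ℤ) (a : Fin r → ℕ) (γ : Fin q → Fin n → ℤ)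
    (C : Fin p → Finset (Fin n → ℤ)) (h : Fin p → Fin r → ℤ) : Prop :=
  q ≤ n ∧ (∀ i, a i ≤ A) ∧ (∀ t i, pair (γ t) (v i) ≤ A) ∧ (∀ k, (C k).Nonempty) ∧
    ∀ k i, ∀ w ∈ C k, 0 ≤ pair w (v i) + h k i

/-- The pair with the boundary `∑ i, b i D_i + ∑ k, b' k N_k` is `(ε, ℝ)`-complementary: `U` is a
finite set of (real) weights of the linear system of `-(K + B)`, each `u ∈ U` lies in the polyhedron
of `-(K + B)`, and for each non-zero lattice vector `x` which is a `G`-invariant valuation with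
centre on `X`, the log discrepancy of the complement at `x` is at least `ε`. -/
def Complementary {n r q p : ℕ} (ε : ℝ) (v : Fin r → Fin n → ℤ) (a : Fin r → ℕ)
    (γ : Fin q → Fin n → ℤ) (C : Fin p → Finset (Fin n → ℤ)) (h : Fin p → Fin r → ℤ)
    (b : Fin r → ℝ) (b' : Fin p → ℝ) : Prop :=
  (∀ k, b' k ≤ 1 - ε) ∧ ∃ U : Finset (Fin n → ℝ), U.Nonempty ∧
    (∀ u ∈ U, ∀ i, ev u (v i) ≤ a i - b i - ∑ k, b' k * (h k i : ℝ)) ∧
      ∀ x : Fin n → ℤ, x ≠ 0 → (∀ t, pair (γ t) x ≤ 0) → InCone v x →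
        ∃ u ∈ U, ε ≤ ev u x - ∑ k, b' k * (mn (C k) x : ℝ)

/-- The threshold of `M = ∑ i, m i D_i + ∑ k, m' k N_k` with respect to
`B = ∑ i, b i D_i + ∑ k, b' k N_k`: the supremum, in `[0, ∞]`, of the `s ≥ 0` for which `B + s M`
is `(ε, ℝ)`-complementary. -/
noncomputable def threshold {n r q p : ℕ} (ε : ℝ) (v : Fin r → Fin n → ℤ) (a : Fin r → ℕ)
    (γ : Fin q → Fin n → ℤ) (C : Fin p → Finset (Fin n → ℤ)) (h : Fin p → Fin r → ℤ)
    (b m : Fin r → ℝ) (b' m' : Fin p → ℝ) : ℝ≥0∞ :=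
  ⨆ (s : ℝ) (_ : 0 ≤ s ∧ Complementary ε v a γ C h (fun i => b i + s * m i)
    (fun k => b' k + s * m' k)), ENNReal.ofReal s

/-- The set of all thresholds in rank at most `d` (the rank of a spherical variety is at most its
dimension), with `ε ∈ E`, the non-zero coefficients of `B` in `Γ₁` and those of `M` in `Γ₂`, over
all `(ε, ℝ)`-complementary pairs. -/
def thresholds (d A : ℕ) (E Γ₁ Γ₂ : Set ℝ) : Set ℝ≥0∞ :=
  {t | ∃ ε ∈ E, ∃ (n r q p : ℕ) (v : Fin r → Fin n → ℤ) (a : Fin r → ℕ) (γ : Fin q → Fin n → ℤ)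
    (C : Fin p → Finset (Fin n → ℤ)) (h : Fin p → Fin r → ℤ) (b m : Fin r → ℝ)
    (b' m' : Fin p → ℝ), n ≤ d ∧ IsData A v a γ C h ∧ 0 ≤ ε ∧
    (∀ i, (b i = 0 ∨ b i ∈ Γ₁) ∧ 0 ≤ b i) ∧ (∀ k, (b' k = 0 ∨ b' k ∈ Γ₁) ∧ 0 ≤ b' k) ∧
    (∀ i, (m i = 0 ∨ m i ∈ Γ₂) ∧ 0 ≤ m i) ∧ (∀ k, (m' k = 0 ∨ m' k ∈ Γ₂) ∧ 0 ≤ m' k) ∧
    Complementary ε v a γ C h b b' ∧ t = threshold ε v a γ C h b m b' m'}

/-- The descending chain condition: no strictly decreasing infinite sequence. -/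
def DCC (Γ : Set ℝ) : Prop := ¬ ∃ f : ℕ → ℝ, StrictAnti f ∧ ∀ n, f n ∈ Γ

/-- The ascending chain condition: no strictly increasing infinite sequence. -/
def ACC (S : Set ℝ≥0∞) : Prop := ¬ ∃ f : ℕ → ℝ≥0∞, StrictMono f ∧ ∀ n, f n ∈ S

/-- Existence of decomposed complements: there is a finite set `Γ₀`, depending only on `d`, `A`,
`E` and `Γ`, such that the coefficients of every `(ε, ℝ)`-complementary pair with `ε ∈ E` and
non-zero coefficients in `Γ` (`b i = 0` if `D_i` is not `G`-invariant) can be raised to elements of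
`Γ₀`, keeping the coefficients which are `0`, so that the pair is again `(ε, ℝ)`-complementary. -/
def Decomposed (d A : ℕ) (E Γ : Set ℝ) : Prop :=
  ∃ Γ₀ : Set ℝ, Γ₀.Finite ∧ ∀ (n r q p : ℕ) (ε : ℝ) (v : Fin r → Fin n → ℤ) (a : Fin r → ℕ)
    (γ : Fin q → Fin n → ℤ) (C : Fin p → Finset (Fin n → ℤ)) (h : Fin p → Fin r → ℤ)
    (b : Fin r → ℝ) (b' : Fin p → ℝ), n ≤ d → IsData A v a γ C h → ε ∈ E → 0 ≤ ε →
    (∀ i, b i = 0 ∨ (a i = 1 ∧ v i ≠ 0 ∧ ∀ t, pair (γ t) (v i) ≤ 0)) →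
    (∀ i, (b i = 0 ∨ b i ∈ Γ) ∧ 0 ≤ b i) → (∀ k, (b' k = 0 ∨ b' k ∈ Γ) ∧ 0 ≤ b' k) →
    Complementary ε v a γ C h b b' →
      ∃ (c : Fin r → ℝ) (c' : Fin p → ℝ),
        (∀ i, b i ≤ c i ∧ c i ∈ Γ₀ ∧ (b i = 0 → c i = 0)) ∧
        (∀ k, b' k ≤ c' k ∧ c' k ∈ Γ₀ ∧ (b' k = 0 → c' k = 0)) ∧
          Complementary ε v a γ C h c c'

end Pool.Agent.Helper98.Sph
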