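import Pool.Agent.Helper98.Sph.Defs
import Pool.Agent.Helper98.Sph.Dual
import Pool.Agent.Helper98.Sph.Sub

/-!
# Violations of bounded size

A violation gives a reduced violation, and infinitely many reduced violations have the same number
of relevant divisors `N_t` along a subsequence.
-/

open Finset Filter Topology

namespace Pool.Agent.Helper98.Sph

open Pool.Agent.Helper31.Toric (intVec coefGroup)
open Pool.Agent.Helper98.Germ (dot val val_le exists_val_eq)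

private theorem val_nonneg {k : ℕ} (E : Finset (Fin k → ℕ)) (μ : Fin k → ℝ) (hμ : ∀ i, 0 ≤ μ i) :
    0 ≤ val E μ := by
  by_cases h : E.Nonempty
  · obtain ⟨α, -, e⟩ := exists_val_eq h μ
    rw [← e]
    exact Finset.sum_nonneg fun i _ => mul_nonneg (Nat.cast_nonneg _) (hμ i)
  · unfold Pool.Agent.Helper98.Germ.val
    rw [dif_neg h]

private theorem val_eq_zero {k : ℕ} {E : Finset (Fin k → ℕ)} (h0 : (0 : Fin k → ℕ) ∈ E)
    (μ : Fin k → ℝ) (hμ : ∀ i, 0 ≤ μ i) : val E μ = 0 := by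
  refine le_antisymm ((val_le h0 μ).trans ?_) (val_nonneg E μ hμ)
  simp [dot]

private theorem le_val {k : ℕ} {E : Finset (Fin k → ℕ)} (hE : E.Nonempty)
    (h0 : (0 : Fin k → ℕ) ∉ E) {δ : ℝ} (hδ : 0 < δ) (μ : Fin k → ℝ) (hμ : ∀ i, δ ≤ μ i) :
    δ ≤ val E μ := by
  obtain ⟨α, hα, e⟩ := exists_val_eq hE μ
  rw [← e]
  have hne : α ≠ 0 := by
    rintro rfl
    exact h0 hα
  obtain ⟨i, hi⟩ := Function.ne_iff.1 hne
  have h1 : 1 ≤ α i := Nat.one_le_iff_ne_zero.2 hi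
  have h2 : ((α i : ℕ) : ℝ) * μ i ≤ ∑ i, (α i : ℝ) * μ i :=
    Finset.single_le_sum (f := fun i => (α i : ℝ) * μ i)
      (fun i _ => mul_nonneg (Nat.cast_nonneg _) (hδ.le.trans (hμ i))) (Finset.mem_univ i)
  have h3 : (1 : ℝ) ≤ (α i : ℝ) := by exact_mod_cast h1
  have h4 := hμ i
  unfold dot
  nlinarith

private theorem pair_lin {n k : ℕ} (w : Fin n → ℤ) (v' : Fin k → Fin n → ℤ) (μ : Fin k → ℝ)
    (z : Fin n → ℤ) (hz : ∀ j, (z j : ℝ) = ∑ i, μ i * (v' i j : ℝ)) :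
    ∑ i, μ i * (pair w (v' i) : ℝ) = (pair w z : ℝ) := by
  unfold pair
  push_cast
  simp only [hz, Finset.mul_sum]
  rw [Finset.sum_comm]
  refine Finset.sum_congr rfl fun i _ => Finset.sum_congr rfl fun j _ => ?_
  ring

private theorem sum_g {n q k : ℕ} (γ : Fin q → Fin n → ℤ) (v' : Fin k → Fin n → ℤ) (μ : Fin k → ℝ)
    (z : Fin n → ℤ) (hz : ∀ j, (z j : ℝ) = ∑ i, μ i * (v' i j : ℝ)) (t : Fin n) :
    ∑ i, μ i * (((if ht : t.1 < q then pair (γ ⟨t.1, ht⟩) (v' i) else 0 : ℤ)) : ℝ) =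
      ((if ht : t.1 < q then pair (γ ⟨t.1, ht⟩) z else 0 : ℤ) : ℝ) := by
  by_cases ht : t.1 < q
  · simp only [dif_pos ht]
    exact pair_lin _ _ _ _ hz
  · simp only [dif_neg ht]
    simp

theorem Fam.preRed {n : ℕ} (F : Fam n) {m : ℕ}
    (hv : Viol (F.ε m) (F.v m) (F.a m) (F.γ m) (F.C m) (F.h m) (F.B m) (F.B' m)) :
    ∃ K, K ≤ n + 1 ∧ (PreRed F 0 m K ∨ PreRed F 1 m K) := by
  obtain ⟨k, f, l, x, hk0, hkn, hl, hx, hγ, hcase⟩ := hv
  have hd := F.data m
  refine ⟨k, hkn, ?_⟩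
  have key : ∀ s : ℝ,
      total (fun i => F.a m (f i)) (fun i => F.B m (f i)) (F.B' m)
        (fun t => expo (fun i => F.v m (f i)) (F.C m t) (fun i => F.h m t (f i))) l < s * F.ε m →
      (∀ b, b < m → ∀ μ : EuclideanSpace ℝ (Fin k), (∀ i, 0 < μ i) → ∀ z : Fin n → ℤ,
        (∀ j, (z j : ℝ) = ∑ i, μ i * (F.v m (f i) j : ℝ)) → (∀ t, pair (F.γ m t) z ≤ 0) →
        s * F.ε m ≤ total (fun i => F.a m (f i)) (fun i => F.G b m (f i)) (F.G' b m)
          (fun t => expo (fun i => F.v m (f i)) (F.C m t) (fun i => F.h m t (f i)))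
          (fun i => μ i)) →
      PreRed F s m k := by
    intro s hs hall
    refine ⟨f, fun t i => if ht : t.1 < F.q m then pair (F.γ m ⟨t.1, ht⟩) (F.v m (f i)) else 0,
      l, hl, ⟨x, hx⟩, ?_, ?_, ?_, hs, ?_⟩
    · intro t i
      by_cases ht : t.1 < F.q m
      · simp only [dif_pos ht]
        exact hd.2.2.1 _ _
      · simp only [dif_neg ht]
        exact Int.natCast_nonneg _
    · rintro μ ⟨z, hz⟩ t
      exact ⟨_, sum_g (F.γ m) (fun i => F.v m (f i)) (fun i => μ i) z hz t⟩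
    · intro t
      have h1 := sum_g (F.γ m) (fun i => F.v m (f i)) l x hx t
      refine h1.le.trans ?_
      by_cases ht : t.1 < F.q m
      · rw [dif_pos ht]
        exact_mod_cast hγ _
      · rw [dif_neg ht]
        simp
    · rintro b hb μ ⟨z, hz⟩ hμ hle
      refine hall b hb μ hμ z hz fun t => ?_
      have h1 := hle ⟨t.1, t.2.trans_le hd.1⟩
      have h2 := sum_g (F.γ m) (fun i => F.v m (f i)) (fun i => μ i) z hz
        ⟨t.1, t.2.trans_le hd.1⟩
      have h3 := h2.symm.le.trans h1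
      rw [dif_pos (show (⟨t.1, t.2.trans_le hd.1⟩ : Fin n).1 < F.q m from t.2)] at h3
      exact_mod_cast h3
  rcases hcase with ⟨hli, hlt⟩ | ⟨hx0, hlt⟩
  · right
    refine key 1 (by rw [one_mul]; exact hlt) ?_
    intro b hb μ hμ z hz hzγ
    rw [one_mul]
    refine (Complementary.le_total hd (F.hyes b m hb) f (fun i => μ i) (fun i => (hμ i).le) z hz
      hzγ).1 ?_
    rintro rfl
    have h1 := Fintype.linearIndependent_iff.mp hli (fun i => μ i) (by
      funext j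
      have h2 := hz j
      simp only [Pi.zero_apply, Int.cast_zero] at h2
      simp only [Finset.sum_apply, Pi.smul_apply, smul_eq_mul, Pi.zero_apply]
      exact h2.symm) ⟨0, hk0⟩
    exact (hμ ⟨0, hk0⟩).ne' h1
  · left
    refine key 0 (by rw [zero_mul]; exact hlt) ?_
    intro b hb μ hμ z hz hzγ
    rw [zero_mul]
    have h1 := Complementary.le_total hd (F.hyes b m hb) f (fun i => μ i) (fun i => (hμ i).le) z hz
      hzγ
    by_cases h0 : z = 0
    · exact h1.2 h0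
    · exact (F.hε m).trans (h1.1 h0)

/-- The exponent vectors at the index `m`. -/
private noncomputable def EE {n : ℕ} (F : Fam n) (m : ℕ) {K : ℕ} (f : Fin K → Fin (F.r m))
    (t : Fin (F.p m)) : Finset (Fin K → ℕ) :=
  expo (fun i => F.v m (f i)) (F.C m t) (fun i => F.h m t (f i))

/-- The relevant divisors. -/
private noncomputable def JJ {n : ℕ} (F : Fam n) (m : ℕ) {K : ℕ} (f : Fin K → Fin (F.r m)) :
    Finset (Fin (F.p m)) :=
  open Classical in Finset.univ.filter (fun t => ¬ F.Z m t ∧ (0 : Fin K → ℕ) ∉ EE F m f t)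

private theorem mem_JJ {n : ℕ} (F : Fam n) (m : ℕ) {K : ℕ} (f : Fin K → Fin (F.r m))
    (t : Fin (F.p m)) : t ∈ JJ F m f ↔ ¬ F.Z m t ∧ (0 : Fin K → ℕ) ∉ EE F m f t := by
  simp only [JJ, Finset.mem_filter, Finset.mem_univ, true_and]

private theorem EE_nonempty {n : ℕ} (F : Fam n) (m : ℕ) {K : ℕ} (f : Fin K → Fin (F.r m))
    (t : Fin (F.p m)) : (EE F m f t).Nonempty := by
  unfold EE expo
  exact ((F.data m).2.2.2.1 t).image _

private theorem redAt_of {n : ℕ} (F : Fam n) (s : ℝ) (m K P : ℕ)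
    (f : Fin K → Fin (F.r m)) (g : Fin n → Fin K → ℤ) (l : Fin K → ℝ)
    (h1 : ∀ i, 0 < l i)
    (h2 : (WithLp.toLp 2 l : EuclideanSpace ℝ (Fin K)) ∈ coefGroup (fun i => F.v m (f i)))
    (h3 : ∀ t i, g t i ≤ F.A)
    (h4 : ∀ μ ∈ coefGroup (fun i => F.v m (f i)), ∀ t, ∃ z : ℤ, ∑ i, μ i * (g t i : ℝ) = z)
    (h5 : ∀ t, ∑ i, l i * (g t i : ℝ) ≤ 0)
    (h6 : total (fun i => F.a m (f i)) (fun i => F.B m (f i)) (F.B' m)
      (fun t => expo (fun i => F.v m (f i)) (F.C m t) (fun i => F.h m t (f i))) l < s * F.ε m)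
    (h7 : ∀ b, b < m → ∀ μ ∈ coefGroup (fun i => F.v m (f i)), (∀ i, 0 < μ i) →
      (∀ t, ∑ i, μ i * (g t i : ℝ) ≤ 0) →
        s * F.ε m ≤ total (fun i => F.a m (f i)) (fun i => F.G b m (f i)) (F.G' b m)
          (fun t => expo (fun i => F.v m (f i)) (F.C m t) (fun i => F.h m t (f i)))
          (fun i => μ i))
    (hP : (JJ F m f).card = P) : RedAt F s m K P := by
  subst hP
  set J := JJ F m f with hJ
  let k : Fin J.card → Fin (F.p m) := fun t => (J.equivFin.symm t : J).1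
  have hk : ∀ φ : Fin (F.p m) → ℝ, ∑ t, φ (k t) = ∑ j ∈ J, φ j := by
    intro φ
    rw [← Finset.sum_coe_sort J φ]
    exact Equiv.sum_comp J.equivFin.symm (fun x : J => φ x.1)
  refine ⟨f, k, g, l, h1, h2, h3, h4, h5, ?_, ?_⟩
  · refine lt_of_eq_of_lt ?_ h6
    unfold total
    rw [hk (fun j => F.B' m j *
      val (expo (fun i => F.v m (f i)) (F.C m j) (fun i => F.h m j (f i))) l)]
    congr 1
    refine Finset.sum_subset (Finset.subset_univ _) fun j _ hj => ?_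
    rw [hJ, mem_JJ, not_and] at hj
    by_cases hZ : F.Z m j
    · rw [F.hZB m j hZ, zero_mul]
    · have h8 : (0 : Fin K → ℕ) ∈ EE F m f j := by
        by_contra hc
        exact hj hZ hc
      have h9 := val_eq_zero h8 l fun i => (h1 i).le
      unfold EE at h9
      rw [h9, mul_zero]
  · intro b hb μ hμ hpos hle
    refine (h7 b hb μ hμ hpos hle).trans ?_
    unfold total
    rw [hk (fun j => F.G' b m j *
      val (expo (fun i => F.v m (f i)) (F.C m j) (fun i => F.h m j (f i))) (fun i => μ i))]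
    have h8 : ∑ j ∈ J, F.G' b m j *
        val (expo (fun i => F.v m (f i)) (F.C m j) (fun i => F.h m j (f i))) (fun i => μ i) ≤
        ∑ j, F.G' b m j *
        val (expo (fun i => F.v m (f i)) (F.C m j) (fun i => F.h m j (f i))) (fun i => μ i) :=
      Finset.sum_le_sum_of_subset_of_nonneg (Finset.subset_univ _) fun t _ _ =>
        mul_nonneg (F.hG0' b m t) (val_nonneg _ _ fun i => (hpos i).le)
    linarith

private theorem card_bound {n : ℕ} (F : Fam n) (s : ℝ) (hs : 0 ≤ s) (m K : ℕ) (hm : 0 < m)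
    (f : Fin K → Fin (F.r m)) (g : Fin n → Fin K → ℤ)
    (h7 : ∀ b, b < m → ∀ μ ∈ coefGroup (fun i => F.v m (f i)), (∀ i, 0 < μ i) →
      (∀ t, ∑ i, μ i * (g t i : ℝ) ≤ 0) →
        s * F.ε m ≤ total (fun i => F.a m (f i)) (fun i => F.G b m (f i)) (F.G' b m)
          (fun t => expo (fun i => F.v m (f i)) (F.C m t) (fun i => F.h m t (f i)))
          (fun i => μ i))
    (μ : EuclideanSpace ℝ (Fin K)) (hμ : μ ∈ coefGroup (fun i => F.v m (f i))) (δ : ℝ)
    (hδ : 0 < δ) (hδμ : ∀ i, δ ≤ μ i) (hle : ∀ t, ∑ i, μ i * (g t i : ℝ) ≤ 0) :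
    F.c₀ * ((JJ F m f).card : ℝ) * δ ≤ (F.A : ℝ) * ∑ i, μ i := by
  have hpos : ∀ i, 0 < μ i := fun i => hδ.trans_le (hδμ i)
  have h1 := h7 0 hm μ hμ hpos hle
  have h0 : 0 ≤ s * F.ε m := mul_nonneg hs (F.hε m)
  unfold total at h1
  have h2 : ∑ i, μ i * ((F.a m (f i) : ℝ) - F.G 0 m (f i)) ≤ (F.A : ℝ) * ∑ i, μ i := by
    rw [Finset.mul_sum]
    refine Finset.sum_le_sum fun i _ => ?_
    have h3 : (F.a m (f i) : ℝ) ≤ F.A := by exact_mod_cast (F.data m).2.1 (f i)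
    have h4 := F.hG0 0 m (f i)
    have h5 := (hpos i).le
    nlinarith
  have h3 : F.c₀ * ((JJ F m f).card : ℝ) * δ ≤ ∑ t, F.G' 0 m t *
      val (expo (fun i => F.v m (f i)) (F.C m t) (fun i => F.h m t (f i))) (fun i => μ i) := by
    calc F.c₀ * ((JJ F m f).card : ℝ) * δ = ∑ _t ∈ JJ F m f, F.c₀ * δ := by
          rw [Finset.sum_const, nsmul_eq_mul]
          ring
      _ ≤ ∑ t ∈ JJ F m f, F.G' 0 m t *
          val (expo (fun i => F.v m (f i)) (F.C m t) (fun i => F.h m t (f i)))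
            (fun i => μ i) := by
          refine Finset.sum_le_sum fun t ht => ?_
          rw [mem_JJ] at ht
          have h6 := F.hZG 0 m t ht.1
          have h7 : δ ≤ val (EE F m f t) (fun i => μ i) :=
            le_val (EE_nonempty F m f t) ht.2 hδ _ hδμ
          exact mul_le_mul h6 h7 hδ.le (F.hc₀.le.trans h6)
      _ ≤ ∑ t, F.G' 0 m t *
          val (expo (fun i => F.v m (f i)) (F.C m t) (fun i => F.h m t (f i)))
            (fun i => μ i) :=
          Finset.sum_le_sum_of_subset_of_nonneg (Finset.subset_univ _) fun t _ _ =>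
            mul_nonneg (F.hG0' 0 m t) (val_nonneg _ _ fun i => (hpos i).le)
  linarith

private theorem frequently_card (c : ℕ → ℕ) (c₀ N : ℝ) (hc₀ : 0 < c₀)
    (h : ∃ᶠ n in atTop, c₀ * (c n : ℝ) ≤ N) : ∃ P, ∃ᶠ n in atTop, c n = P := by
  by_contra hcon
  push Not at hcon
  have h1 : ∀ᶠ n in atTop, ∀ P ∈ Finset.range (⌈N / c₀⌉₊ + 1), c n ≠ P :=
    (Filter.eventually_all_finset _).2 fun P _ => by
      have := hcon P
      simpa [Filter.Frequently] using this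
  obtain ⟨n, hn1, hn2⟩ := (h.and_eventually h1).exists
  refine hn2 (c n) ?_ rfl
  rw [Finset.mem_range, Nat.lt_succ_iff]
  have h3 : (c n : ℝ) ≤ N / c₀ := by
    rw [le_div_iff₀ hc₀]
    linarith
  have h4 : (c n : ℝ) ≤ (⌈N / c₀⌉₊ : ℝ) := h3.trans (Nat.le_ceil _)
  exact_mod_cast h4

theorem Fam.exists_redAt {n : ℕ} (F : Fam n) (s : ℝ) (hs : 0 ≤ s) (K : ℕ) (φ : ℕ → ℕ)
    (hφ : StrictMono φ) (h : ∀ m, PreRed F s (φ m) K) :
    ∃ (ψ : ℕ → ℕ) (P : ℕ), StrictMono ψ ∧ ∀ m, RedAt F s (ψ m) K P := by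
  have hφ1 : ∀ m, 0 < φ (m + 1) := fun m =>
    lt_of_lt_of_le (Nat.succ_pos m) (hφ.id_le (m + 1))
  have h' : ∀ m, PreRed F s (φ (m + 1)) K := fun m => h (m + 1)
  choose f g l h1 h2 h3 h4 h5 h6 h7 using h'
  obtain ⟨N, hN⟩ := core_bound (A := F.A) g
    (fun m => coefGroup (fun i => F.v (φ (m + 1)) (f m i)))
    (fun m => F.c₀ * ((JJ F (φ (m + 1)) (f m)).card : ℝ))
    (fun m z => by
      refine ⟨fun j => ∑ i, z i * F.v (φ (m + 1)) (f m i) j, fun j => ?_⟩
      push_cast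
      exact Finset.sum_congr rfl fun i _ => rfl)
    h3 h4 l h1 h2 h5
    (fun m μ hμ δ hδ hδμ hle =>
      card_bound F s hs (φ (m + 1)) K (hφ1 m) (f m) (g m) (h7 m) μ hμ δ hδ hδμ hle)
  obtain ⟨P, hP⟩ := frequently_card (fun m => (JJ F (φ (m + 1)) (f m)).card) F.c₀ N F.hc₀ hN
  obtain ⟨χ, hχ, hχP⟩ := Filter.extraction_of_frequently_atTop hP
  refine ⟨fun m => φ (χ m + 1), P, ?_, fun m => ?_⟩
  · intro a b hab
    exact hφ (Nat.succ_lt_succ (hχ hab))
  · exact redAt_of F s _ K P (f (χ m)) (g (χ m)) (l (χ m)) (h1 _) (h2 _) (h3 _) (h4 _) (h5 _)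
      (h6 _) (h7 _) (hχP m)

end Pool.Agent.Helper98.Sph
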